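import Pool.Agent.H572R4.QB.E1
import Pool.Agent.H572R4.QB.E2

/-!
# Greedy decision trees: influential variables in all restrictions give small subcubes with a
different mean, and small subcubes with small variance
-/

set_option autoImplicit false

namespace Pool.Agent.TH334.AA

open Finset Pool.Agent.H572R2 Pool.Agent.H572R4.QA

variable {N : ℕ}

/-- Squared local differences. -/
noncomputable def JQ (f : (Fin N → Bool) → ℝ) (l : Fin N) : (Fin N → Bool) → ℝ :=
  fun x => dd f l x ^ 2 / 4

/-- Total influence of the restriction. -/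
noncomputable def II (f : (Fin N → Bool) → ℝ) (S : Finset (Fin N)) (a : Fin N → Bool) : ℝ :=
  ∑ l ∈ Sᶜ, Ex S a (JQ f l)

theorem inf1_mix_mem (f : (Fin N → Bool) → ℝ) (S : Finset (Fin N)) (a : Fin N → Bool)
    (l : Fin N) (hl : l ∈ S) : inf1 (fun x => f (mix S a x)) l = 0 := by
  unfold inf1
  have : EE (fun x : Fin N → Bool => dd (fun x => f (mix S a x)) l x ^ 2) = 0 := by
    rw [← EE_const (N := N) 0]
    apply EE_congr
    intro x
    unfold dd
    beta_reduce
    rw [mix_flp_mem hl]
    simp
  rw [this]; simp

theorem inf1_mix_not_mem (f : (Fin N → Bool) → ℝ) (S : Finset (Fin N)) (a : Fin N → Bool)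
    (l : Fin N) (hl : l ∉ S) : inf1 (fun x => f (mix S a x)) l = Ex S a (JQ f l) := by
  unfold inf1 Ex JQ
  have : EE (fun x : Fin N → Bool => dd (fun x => f (mix S a x)) l x ^ 2)
      = EE (fun x : Fin N → Bool => 4 * (dd f l (mix S a x) ^ 2 / 4)) := by
    apply EE_congr
    intro x
    unfold dd
    beta_reduce
    rw [mix_flp_not_mem hl]
    ring
  rw [this, EE_mul]; ring

theorem II_nonneg (f : (Fin N → Bool) → ℝ) (S : Finset (Fin N)) (a : Fin N → Bool) :
    0 ≤ II f S a :=
  Finset.sum_nonneg fun l _ => EE_nonneg fun x => by unfold JQ; positivity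

theorem Ex_JQ_le_II (f : (Fin N → Bool) → ℝ) (S : Finset (Fin N)) (a : Fin N → Bool)
    {i : Fin N} (hi : i ∉ S) : Ex S a (JQ f i) ≤ II f S a := by
  unfold II
  exact Finset.single_le_sum (f := fun l => Ex S a (JQ f l))
    (fun l _ => EE_nonneg fun x => by unfold JQ; positivity) (by simpa using hi)

theorem II_split (f : (Fin N → Bool) → ℝ) {S : Finset (Fin N)} {i : Fin N} (hi : i ∉ S)
    (a : Fin N → Bool) :
    II f S a = Ex S a (JQ f i)
      + (II f (insert i S) (Function.update a i true)
          + II f (insert i S) (Function.update a i false)) / 2 := by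
  unfold II
  have h1 : Sᶜ = insert i (insert i S)ᶜ := by
    ext l
    simp only [Finset.mem_compl, Finset.mem_insert]
    by_cases hl : l = i
    · subst hl; simp [hi]
    · simp [hl]
  rw [h1, Finset.sum_insert (by simp)]
  congr 1
  rw [← Finset.sum_add_distrib, Finset.sum_div]
  apply Finset.sum_congr rfl
  intro l _
  exact Ex_split hi a (JQ f l)

/-- Second moment around `c` in the subcube. -/
noncomputable def UU (f : (Fin N → Bool) → ℝ) (c : ℝ) (S : Finset (Fin N)) (a : Fin N → Bool) : ℝ :=
  Ex S a (fun x => (f x - c) ^ 2)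

theorem UU_eq (f : (Fin N → Bool) → ℝ) (c : ℝ) (S : Finset (Fin N)) (a : Fin N → Bool) :
    UU f c S a = var (fun x => f (mix S a x)) + (Ex S a f - c) ^ 2 := by
  unfold UU Ex var
  have h1 : EE (fun x : Fin N → Bool => (f (mix S a x) - c) ^ 2)
      = EE (fun x : Fin N → Bool => (f (mix S a x) ^ 2 - 2 * c * f (mix S a x)) + c ^ 2) := by
    apply EE_congr; intro x; ring
  rw [h1, EE_add, EE_sub, EE_mul, EE_const]
  ring

theorem UU_le (f : (Fin N → Bool) → ℝ) (hf : ∀ x, |f x| ≤ 1) (c : ℝ) (hc : |c| ≤ 1)
    (S : Finset (Fin N)) (a : Fin N → Bool) : UU f c S a ≤ 4 := by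
  unfold UU Ex
  rw [← EE_const (N := N) 4]
  apply EE_mono
  intro x
  have h1 := abs_le.1 (hf (mix S a x))
  have h2 := abs_le.1 hc
  nlinarith [h1.1, h1.2, h2.1, h2.2]

/-- If every restriction of variance more than `κ` has an influential variable and no small subcube
has a mean far from `c`, then the second moment around `c` is small. -/
theorem tree_mean (f : (Fin N → Bool) → ℝ) (hf : ∀ x, |f x| ≤ 1) (c : ℝ) (hc : |c| ≤ 1)
    (κ τ η : ℝ) (hκ : 0 ≤ κ) (hτ : 0 < τ)
    (hAA : ∀ (S : Finset (Fin N)) (a : Fin N → Bool), κ < var (fun x => f (mix S a x)) →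
      ∃ i, i ∉ S ∧ τ ≤ Ex S a (JQ f i)) (K : ℕ)
    (hno : ∀ (S : Finset (Fin N)) (a : Fin N → Bool), S.card ≤ K → (Ex S a f - c) ^ 2 ≤ η) :
    ∀ t : ℕ, ∀ (S : Finset (Fin N)) (a : Fin N → Bool), S.card + t ≤ K →
      UU f c S a ≤ κ + η + 4 * II f S a / (τ * (t + 1)) := by
  have hη : 0 ≤ η := (sq_nonneg _).trans (hno ∅ (fun _ => true) (by simp))
  intro t
  induction t with
  | zero =>
    intro S a hS
    by_cases hvar : κ < var (fun x => f (mix S a x))
    · obtain ⟨i, hi, hiτ⟩ := hAA S a hvar
      have h1 := Ex_JQ_le_II f S a hi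
      have h2 : 4 ≤ 4 * II f S a / (τ * (((0:ℕ):ℝ) + 1)) := by
        rw [le_div_iff₀ (by positivity)]
        push_cast
        nlinarith
      have h3 := UU_le f hf c hc S a
      linarith
    · have h1 := UU_eq f c S a
      have h2 := hno S a (by omega)
      have h3 : 0 ≤ 4 * II f S a / (τ * (((0:ℕ):ℝ) + 1)) := by
        have := II_nonneg f S a
        positivity
      linarith
  | succ t ih =>
    intro S a hS
    have hT : 0 < τ * (((t + 1 : ℕ) : ℝ) + 1) := by positivity
    by_cases hvar : κ < var (fun x => f (mix S a x))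
    · obtain ⟨i, hi, hiτ⟩ := hAA S a hvar
      by_cases hbig : τ * (((t + 1 : ℕ) : ℝ) + 1) ≤ II f S a
      · have h2 : 4 ≤ 4 * II f S a / (τ * (((t + 1 : ℕ) : ℝ) + 1)) := by
          rw [le_div_iff₀ hT]
          linarith
        have h3 := UU_le f hf c hc S a
        linarith
      · push Not at hbig
        have hcard : (insert i S).card = S.card + 1 := Finset.card_insert_of_notMem hi
        have h1 := ih (insert i S) (Function.update a i true) (by omega)
        have h2 := ih (insert i S) (Function.update a i false) (by omega)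
        have h3 : UU f c S a = (UU f c (insert i S) (Function.update a i true)
            + UU f c (insert i S) (Function.update a i false)) / 2 := Ex_split hi a _
        have h4 := II_split f hi a
        have h5 : UU f c S a ≤ κ + η + 4 * (II f S a - Ex S a (JQ f i)) / (τ * ((t:ℝ) + 1)) := by
          have h6 : 4 * (II f S a - Ex S a (JQ f i)) / (τ * ((t:ℝ) + 1))
              = (4 * II f (insert i S) (Function.update a i true) / (τ * ((t:ℝ) + 1))
                + 4 * II f (insert i S) (Function.update a i false) / (τ * ((t:ℝ) + 1))) / 2 := by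
            rw [h4]; ring
          rw [h6, h3]
          linarith
        refine h5.trans ?_
        have h7 : 4 * (II f S a - Ex S a (JQ f i)) / (τ * ((t:ℝ) + 1))
            ≤ 4 * II f S a / (τ * (((t + 1 : ℕ) : ℝ) + 1)) := by
          rw [div_le_div_iff₀ (by positivity) hT]
          push_cast at hbig ⊢
          have h8 : (II f S a - Ex S a (JQ f i)) * ((t:ℝ) + 1 + 1) ≤ II f S a * ((t:ℝ) + 1) := by
            have h9 : τ * ((t:ℝ) + 1 + 1) ≤ Ex S a (JQ f i) * ((t:ℝ) + 1 + 1) := by
              gcongr
            nlinarith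
          have h10 := mul_le_mul_of_nonneg_left h8 (show (0:ℝ) ≤ 4 * τ by positivity)
          linarith
        linarith
    · have h1 := UU_eq f c S a
      have h2 := hno S a (by omega)
      have h3 : 0 ≤ 4 * II f S a / (τ * (((t + 1 : ℕ) : ℝ) + 1)) := by
        have := II_nonneg f S a
        positivity
      push Not at hvar
      linarith

/-- If every restriction of variance more than `κ` has an influential variable and no small subcube
has variance at most `κ`, then the total influence is large. -/
theorem tree_var (f : (Fin N → Bool) → ℝ) (κ τ : ℝ)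
    (hAA : ∀ (S : Finset (Fin N)) (a : Fin N → Bool), κ < var (fun x => f (mix S a x)) →
      ∃ i, i ∉ S ∧ τ ≤ Ex S a (JQ f i)) (K : ℕ)
    (hno : ∀ (S : Finset (Fin N)) (a : Fin N → Bool), S.card ≤ K →
      κ < var (fun x => f (mix S a x))) :
    ∀ t : ℕ, ∀ (S : Finset (Fin N)) (a : Fin N → Bool), S.card + t ≤ K →
      τ * (t + 1) ≤ II f S a := by
  intro t
  induction t with
  | zero =>
    intro S a hS
    obtain ⟨i, hi, hiτ⟩ := hAA S a (hno S a (by omega))
    have := Ex_JQ_le_II f S a hi
    push_cast
    linarith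
  | succ t ih =>
    intro S a hS
    obtain ⟨i, hi, hiτ⟩ := hAA S a (hno S a (by omega))
    have hcard : (insert i S).card = S.card + 1 := Finset.card_insert_of_notMem hi
    have h1 := ih (insert i S) (Function.update a i true) (by omega)
    have h2 := ih (insert i S) (Function.update a i false) (by omega)
    have h4 := II_split f hi a
    push_cast
    linarith

/-- Level one coefficient. -/
noncomputable def lev (g : (Fin N → Bool) → ℝ) (i : Fin N) : ℝ :=
  EE (fun x => g x * (-1 : ℝ) ^ (x i).toNat)

theorem mean_step (f : (Fin N → Bool) → ℝ) {S : Finset (Fin N)} {i : Fin N} (hi : i ∉ S)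
    (a : Fin N → Bool) :
    Ex (insert i S) a f = Ex S a f + (-1 : ℝ) ^ (a i).toNat * lev (fun x => f (mix S a x)) i := by
  unfold Ex lev EE
  have h1 : ∀ x : Fin N → Bool, mix (insert i S) a x = mix S a (Function.update x i (a i)) := by
    intro x
    funext j
    unfold mix
    by_cases hj : j = i
    · subst hj; simp [hi]
    · simp [hj]
  have h2 := e2_sum_update (fun x => f (mix S a x)) i (a i)
  have h3 : ∑ x : Fin N → Bool, f (mix (insert i S) a x)
      = ∑ x : Fin N → Bool, f (mix S a (Function.update x i (a i))) :=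
    Finset.sum_congr rfl fun x _ => by rw [h1]
  rw [h3, h2]
  ring

/-- If all level one coefficients of small restrictions are small then the means are close. -/
theorem mean_path (f : (Fin N → Bool) → ℝ) (K : ℕ) (ρ : ℝ)
    (hno : ∀ (S : Finset (Fin N)) (a : Fin N → Bool) (i : Fin N), S.card ≤ K →
      |lev (fun x => f (mix S a x)) i| ≤ ρ) :
    ∀ (S : Finset (Fin N)) (a : Fin N → Bool), S.card ≤ K → |Ex S a f - EE f| ≤ S.card * ρ := by
  intro S
  induction S using Finset.induction_on with
  | empty =>
    intro a _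
    have : Ex ∅ a f = EE f := by
      unfold Ex
      simp only [mix_empty]
    rw [this]; simp
  | insert i S hi ih =>
    intro a hS
    have hcard : (insert i S).card = S.card + 1 := Finset.card_insert_of_notMem hi
    have h1 := ih a (by omega)
    have h2 := hno S a i (by omega)
    rw [mean_step f hi a, hcard]
    push_cast
    have h3 : |(-1 : ℝ) ^ (a i).toNat * lev (fun x => f (mix S a x)) i| ≤ ρ := by
      rw [abs_mul, abs_pow, abs_neg, abs_one, one_pow, one_mul]
      exact h2
    have h4 : Ex S a f + (-1 : ℝ) ^ (a i).toNat * lev (fun x => f (mix S a x)) i - EE f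
        = (Ex S a f - EE f) + (-1 : ℝ) ^ (a i).toNat * lev (fun x => f (mix S a x)) i := by ring
    rw [h4]
    have h5 := abs_add_le (Ex S a f - EE f)
      ((-1 : ℝ) ^ (a i).toNat * lev (fun x => f (mix S a x)) i)
    linarith

end Pool.Agent.TH334.AA
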