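import Pool.Agent.H572R4.QA.Defs
import Pool.Agent.H572R2.ReadsMain

/-!
# The OSSS-type induction with truncated depth
-/

set_option autoImplicit false

namespace Pool.Agent.TH334.AA

open Finset Pool.Agent.H572R2 Pool.Agent.H572R4.QA

variable {N : ℕ}

theorem AA_big (m : ℕ → Fin N → (Fin N → Bool) → ℝ) (hm : ∀ t k x, 0 ≤ m t k x)
    (S : Finset (Fin N)) (a : Fin N → Bool) {i : Fin N} (hi : i ∉ S) :
    Ex S a (m 0 i) ≤ H572R2.AA m 1 S a := by
  unfold H572R2.AA
  rw [Finset.sum_range_one]
  exact Finset.single_le_sum (f := fun k => Ex S a (m 0 k))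
    (fun k _ => EE_nonneg fun x => hm 0 k _) (by simpa using hi)

/-- The OSSS-type induction with truncated depth. -/
theorem tree_trunc (m : ℕ → Fin N → (Fin N → Bool) → ℝ) (hm : ∀ t k x, 0 ≤ m t k x)
    (p : (Fin N → Bool) → ℝ) (hp0 : ∀ x, 0 ≤ p x) (hp1 : ∀ x, p x ≤ 1) (β τ lam : ℝ)
    (hβ : 0 ≤ β) (hτ : 0 < τ) (hlam : 0 ≤ lam)
    (hinf : ∀ i, EE (fun x => |p x - p (flp i x)|) ≤ 2 * lam) (K : ℕ)
    (hlight : ∀ (S : Finset (Fin N)) (a : Fin N → Bool), S.card ≤ K →
      (∀ k ∈ Sᶜ, Ex S a (m 0 k) ≤ τ) →
      Ex S a (fun x => (p x) ^ 2) - (Ex S a p) ^ 2 ≤ β) :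
    ∀ (t : ℕ) (S : Finset (Fin N)) (a : Fin N → Bool), S.card + t ≤ K →
      ∃ g : (Fin N → Bool) → ℝ, (∀ x, 0 ≤ g x) ∧ (∀ x, g x ≤ 1) ∧
        (∀ i ∈ S, ∀ x, g (flp i x) = g x) ∧
        EE (fun x => (p (mix S a x) - g x) ^ 2) ≤ β + H572R2.AA m 1 S a / (τ * (t + 1)) ∧
        |EE (fun x => EA S p x * g x) - EE p * EE g| ≤ lam / τ * H572R2.AA m 1 S a := by
  classical
  have hconst : ∀ (S : Finset (Fin N)) (a : Fin N → Bool) (B : ℝ),
      Ex S a (fun x => (p x) ^ 2) - (Ex S a p) ^ 2 ≤ B →
      ∃ g : (Fin N → Bool) → ℝ, (∀ x, 0 ≤ g x) ∧ (∀ x, g x ≤ 1) ∧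
        (∀ i ∈ S, ∀ x, g (flp i x) = g x) ∧
        EE (fun x => (p (mix S a x) - g x) ^ 2) ≤ B ∧
        |EE (fun x => EA S p x * g x) - EE p * EE g| ≤ lam / τ * H572R2.AA m 1 S a := by
    intro S a B h1
    refine ⟨fun _ => Ex S a p, fun _ => EE_nonneg fun x => hp0 _,
      fun _ => (EE_mono fun x => hp1 _).trans (le_of_eq (EE_const 1)), fun _ _ _ => rfl, ?_, ?_⟩
    · have h2 : EE (fun x => (p (mix S a x) - Ex S a p) ^ 2)
          = Ex S a (fun x => (p x) ^ 2) - 2 * Ex S a p * Ex S a p + (Ex S a p) ^ 2 := by
        unfold Ex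
        rw [← EE_mul, ← EE_sub, ← EE_const (N := N) ((EE fun x => p (mix S a x)) ^ 2), ← EE_add]
        apply EE_congr; intro x
        show _ = (p (mix S a x)) ^ 2 - _ + _
        ring
      rw [h2]
      nlinarith
    · have h2 : EE (fun x => EA S p x * Ex S a p) = EE p * Ex S a p := by
        have e1 : EE (fun x => EA S p x * Ex S a p) = EE (fun x => Ex S a p * EA S p x) := by
          apply EE_congr; intro x; ring
        rw [e1, EE_mul, EE_EA]; ring
      rw [h2, EE_const, sub_self, abs_zero]
      exact mul_nonneg (div_nonneg hlam hτ.le) (AA_nonneg hm 1 S a)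
  have hvar1 : ∀ (S : Finset (Fin N)) (a : Fin N → Bool),
      Ex S a (fun x => (p x) ^ 2) - (Ex S a p) ^ 2 ≤ 1 := by
    intro S a
    have h1 : Ex S a (fun x => (p x) ^ 2) ≤ 1 := by
      unfold Ex
      rw [← EE_const (N := N) 1]
      exact EE_mono fun x => by nlinarith [hp0 (mix S a x), hp1 (mix S a x)]
    nlinarith [sq_nonneg (Ex S a p)]
  intro t
  induction t with
  | zero =>
    intro S a hS
    by_cases hlt : ∀ k ∈ Sᶜ, Ex S a (m 0 k) ≤ τ
    · apply hconst
      have h1 := hlight S a (by omega) hlt
      have h2 : 0 ≤ H572R2.AA m 1 S a / (τ * (((0:ℕ):ℝ) + 1)) :=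
        div_nonneg (AA_nonneg hm 1 S a) (by positivity)
      linarith
    · push Not at hlt
      obtain ⟨i, hi, hti⟩ := hlt
      have hi' : i ∉ S := by simpa using hi
      apply hconst
      have h1 := hvar1 S a
      have h2 := AA_big m hm S a hi'
      have h3 : 1 ≤ H572R2.AA m 1 S a / (τ * (((0:ℕ):ℝ) + 1)) := by
        rw [le_div_iff₀ (by positivity)]
        push_cast
        linarith
      linarith
  | succ t ih =>
    intro S a hS
    have hT : 0 < τ * (((t + 1 : ℕ) : ℝ) + 1) := by positivity
    by_cases hlt : ∀ k ∈ Sᶜ, Ex S a (m 0 k) ≤ τ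
    · apply hconst
      have h1 := hlight S a (by omega) hlt
      have h2 : 0 ≤ H572R2.AA m 1 S a / (τ * (((t + 1 : ℕ):ℝ) + 1)) :=
        div_nonneg (AA_nonneg hm 1 S a) hT.le
      linarith
    · by_cases hbig : τ * (((t + 1 : ℕ) : ℝ) + 1) ≤ H572R2.AA m 1 S a
      · apply hconst
        have h1 := hvar1 S a
        have h3 : 1 ≤ H572R2.AA m 1 S a / (τ * (((t + 1 : ℕ):ℝ) + 1)) := by
          rw [le_div_iff₀ hT]
          linarith
        linarith
      push Not at hlt
      push Not at hbig
      obtain ⟨i, hi, hti⟩ := hlt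
      have hi' : i ∉ S := by simpa using hi
      have hcard : (insert i S).card = S.card + 1 := Finset.card_insert_of_notMem hi'
      obtain ⟨g1, g10, g11, g1inv, g1β, g1c⟩ := ih (insert i S) (Function.update a i true) (by omega)
      obtain ⟨g0, g00, g01, g0inv, g0β, g0c⟩ := ih (insert i S) (Function.update a i false) (by omega)
      have hA := AA_split' hm 1 hi' a (t := 0) (by norm_num) hti.le
      have hiins : i ∈ insert i S := Finset.mem_insert_self i S
      refine ⟨fun x => if x i then g1 x else g0 x, fun x => ?_, fun x => ?_, ?_, ?_, ?_⟩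
      · show 0 ≤ if x i then g1 x else g0 x
        split_ifs
        · exact g10 x
        · exact g00 x
      · show (if x i then g1 x else g0 x) ≤ 1
        split_ifs
        · exact g11 x
        · exact g01 x
      · intro j hj x
        have hji : i ≠ j := by rintro rfl; exact hi' hj
        show (if flp j x i then g1 (flp j x) else g0 (flp j x)) = if x i then g1 x else g0 x
        rw [flp_ne hji, g1inv j (Finset.mem_insert_of_mem hj), g0inv j (Finset.mem_insert_of_mem hj)]
      · have hmix : ∀ c (x : Fin N → Bool), x i = c → mix S a x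
            = mix (insert i S) (Function.update a i c) x := by
          intro c x hx
          funext k
          by_cases hk : k = i
          · subst hk; simp [mix, hi', hx]
          · simp [mix, hk]
        have e1 : EE (fun x => (p (mix S a x) - (if x i then g1 x else g0 x)) ^ 2)
            = EE (fun x => if x i then (p (mix (insert i S) (Function.update a i true) x) - g1 x) ^ 2
              else (p (mix (insert i S) (Function.update a i false) x) - g0 x) ^ 2) := by
          apply EE_congr; intro x
          cases hx : x i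
          · simp only [Bool.false_eq_true, if_false]
            rw [hmix false x hx]
          · simp only [if_true]
            rw [hmix true x hx]
        rw [e1, EE_ite]
        · have h7 : (H572R2.AA m 1 S a - τ) / (τ * ((t:ℝ) + 1))
              ≤ H572R2.AA m 1 S a / (τ * (((t + 1 : ℕ) : ℝ) + 1)) := by
            rw [div_le_div_iff₀ (by positivity) hT]
            push_cast at hbig ⊢
            have h8 : (H572R2.AA m 1 S a - τ) * ((t:ℝ) + 1 + 1)
                ≤ H572R2.AA m 1 S a * ((t:ℝ) + 1) := by
              nlinarith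
            have h10 := mul_le_mul_of_nonneg_left h8 hτ.le
            linarith
          have h9 : (H572R2.AA m 1 (insert i S) (Function.update a i true) / (τ * ((t:ℝ) + 1))
              + H572R2.AA m 1 (insert i S) (Function.update a i false) / (τ * ((t:ℝ) + 1))) / 2
              ≤ (H572R2.AA m 1 S a - τ) / (τ * ((t:ℝ) + 1)) := by
            rw [← add_div, div_div, mul_comm (τ * ((t:ℝ) + 1)) 2, ← div_div]
            gcongr
          linarith
        · intro x
          rw [mix_flp_mem hiins, g1inv i hiins]
        · intro x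
          rw [mix_flp_mem hiins, g0inv i hiins]
      · set P := EA (insert i S) p with hP
        have hPinv : ∀ x, P (flp i x) = P x := fun x => EA_flp_mem hiins p x
        set g : (Fin N → Bool) → ℝ := fun x => if x i then g1 x else g0 x with hg
        have e1 : EE (fun x => EA S p x * g x) = EE (fun x => P x * g x)
            + EE (fun x => (EA S p x - P x) * g x) := by
          rw [← EE_add]; apply EE_congr; intro x; ring
        have e2 : EE (fun x => P x * g x)
            = (EE (fun x => P x * g1 x) + EE (fun x => P x * g0 x)) / 2 := by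
          rw [← EE_ite i (fun x => P x * g1 x) (fun x => P x * g0 x)]
          · apply EE_congr; intro x
            simp only [hg]
            split_ifs <;> rfl
          · intro x
            show P (flp i x) * g1 (flp i x) = P x * g1 x
            rw [hPinv, g1inv i hiins]
          · intro x
            show P (flp i x) * g0 (flp i x) = P x * g0 x
            rw [hPinv, g0inv i hiins]
        have e3 : EE g = (EE g1 + EE g0) / 2 :=
          EE_ite i g1 g0 (g1inv i hiins) (g0inv i hiins)
        have e4 : |EE (fun x => (EA S p x - P x) * g x)| ≤ lam := by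
          refine (EE_abs_le _).trans ?_
          have f1 : ∀ x, |(EA S p x - P x) * g x| ≤ (1 / 2) * EA S (fun y => |p y - p (flp i y)|) x := by
            intro x
            have f2 : EA S p x - P x = (1 / 2) * EA S (fun y => p y - p (flp i y)) x := by
              rw [hP, EA_insert hi', EA_flp_not_mem hi', EA_sub]; ring
            have f3 : |g x| ≤ 1 := by
              rw [abs_of_nonneg]
              · simp only [hg]; split_ifs
                · exact g11 x
                · exact g01 x
              · simp only [hg]; split_ifs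
                · exact g10 x
                · exact g00 x
            rw [abs_mul, f2, abs_mul]
            have f4 := EA_abs_le S (fun y => p y - p (flp i y)) x
            have f5 : |(1 / 2 : ℝ)| = 1 / 2 := by norm_num
            rw [f5]
            calc 1 / 2 * |EA S (fun y => p y - p (flp i y)) x| * |g x|
                ≤ 1 / 2 * EA S (fun y => |p y - p (flp i y)|) x * 1 := by
                  have : 0 ≤ EA S (fun y => |p y - p (flp i y)|) x :=
                    EA_nonneg S (fun y => abs_nonneg _) x
                  gcongr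
              _ = _ := by ring
          refine (EE_mono f1).trans ?_
          rw [EE_mul, EE_EA]
          have := hinf i
          linarith
        rw [e1, e2, e3]
        have e5 : (EE (fun x => P x * g1 x) + EE (fun x => P x * g0 x)) / 2
            + EE (fun x => (EA S p x - P x) * g x) - EE p * ((EE g1 + EE g0) / 2)
            = ((EE (fun x => P x * g1 x) - EE p * EE g1)
              + (EE (fun x => P x * g0 x) - EE p * EE g0)) / 2
              + EE (fun x => (EA S p x - P x) * g x) := by ring
        rw [e5]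
        have e6 : |((EE (fun x => P x * g1 x) - EE p * EE g1)
              + (EE (fun x => P x * g0 x) - EE p * EE g0)) / 2|
            ≤ lam / τ * ((H572R2.AA m 1 (insert i S) (Function.update a i true)
              + H572R2.AA m 1 (insert i S) (Function.update a i false)) / 2) := by
          rw [abs_div]
          have : |(2 : ℝ)| = 2 := by norm_num
          rw [this]
          have f1 := abs_add_le (EE (fun x => P x * g1 x) - EE p * EE g1)
            (EE (fun x => P x * g0 x) - EE p * EE g0)
          linarith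
        have e7 : lam / τ * ((H572R2.AA m 1 (insert i S) (Function.update a i true)
              + H572R2.AA m 1 (insert i S) (Function.update a i false)) / 2)
            ≤ lam / τ * H572R2.AA m 1 S a - lam := by
          have := mul_le_mul_of_nonneg_left hA (div_nonneg hlam hτ.le)
          refine this.trans (le_of_eq ?_)
          field_simp
        have e8 := abs_add_le (((EE (fun x => P x * g1 x) - EE p * EE g1)
              + (EE (fun x => P x * g0 x) - EE p * EE g0)) / 2)
              (EE (fun x => (EA S p x - P x) * g x))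
        linarith

/-- The influence theorem with truncated depth. -/
theorem inf_trunc {f : (Fin N → Bool) → ℝ} {w : Fin N → (Fin N → Bool) → ℝ} {ε k s₀ : ℝ}
    (H : Hyp f w ε k s₀) (hk : 0 < k) (τ : ℝ) (hτ : 0 < τ) (V : ℝ) (hV : V = var f) (hV0 : 0 < V)
    (K : ℕ) (hK : 8 * k / (τ * V) ≤ K + 1)
    (hcold : ∀ (S : Finset (Fin N)) (a : Fin N → Bool), S.card ≤ K →
      (∀ i ∈ Sᶜ, Ex S a (w i) ≤ τ) → var (fun x => f (mix S a x)) ≤ V / 8) :
    ∃ i : Fin N, (3 * V * τ / (8 * k)) ^ 2 ≤ EE (fun x => ((f x - f (flp i x)) / 2) ^ 2) := by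
  set m : ℕ → Fin N → (Fin N → Bool) → ℝ := fun _ i x => w i x with hmdef
  have hm : ∀ t k x, 0 ≤ m t k x := fun _ i x => H.w0 i x
  have hms : ∀ t x, ∑ i, m t i x ≤ k := fun _ x => H.wk x
  have hlight : ∀ (S : Finset (Fin N)) (a : Fin N → Bool), S.card ≤ K →
      (∀ i ∈ Sᶜ, Ex S a (m 0 i) ≤ τ) →
      Ex S a (fun x => (f x) ^ 2) - (Ex S a f) ^ 2 ≤ V / 8 := by
    intro S a hS h
    exact hcold S a hS (fun i hi => h i hi)
  have hVe : V = EE (fun x => (f x - EE f) ^ 2) := by
    have h1 : EE (fun x => (f x - EE f) ^ 2)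
        = EE (fun x => (f x ^ 2 - 2 * EE f * f x) + EE f ^ 2) := by
      apply EE_congr; intro x; ring
    rw [hV, h1, EE_add, EE_sub, EE_mul, EE_const]
    unfold var
    ring
  set lam0 : ℝ := 3 * V * τ / (8 * k) with hlam0
  have hlam0pos : 0 < lam0 := by positivity
  by_contra hcon
  push Not at hcon
  have hL1 : ∀ i, EE (fun x => |f x - f (flp i x)|) < 2 * lam0 := by
    intro i
    have h1 := EE_cs (fun x => |(f x - f (flp i x)) / 2|) (fun _ => (1 : ℝ))
    have h2 : EE (fun x => |(f x - f (flp i x)) / 2| ^ 2)
        = EE (fun x => ((f x - f (flp i x)) / 2) ^ 2) := by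
      apply EE_congr; intro x; rw [sq_abs]
    have h3 : EE (fun _ : Fin N → Bool => (1 : ℝ) ^ 2) = 1 := by
      rw [EE_const]; norm_num
    have h4 : EE (fun x => |(f x - f (flp i x)) / 2| * 1)
        = (1 / 2) * EE (fun x => |f x - f (flp i x)|) := by
      rw [← EE_mul]; apply EE_congr; intro x
      rw [abs_div]
      have : |(2 : ℝ)| = 2 := by norm_num
      rw [this]; ring
    rw [h2, h3, h4, mul_one] at h1
    have h5 := h1.trans_lt (hcon i)
    have h6 : 1 / 2 * EE (fun x => |f x - f (flp i x)|) < lam0 := by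
      by_contra hc
      push Not at hc
      have : lam0 ^ 2 ≤ (1 / 2 * EE (fun x => |f x - f (flp i x)|)) ^ 2 :=
        pow_le_pow_left₀ hlam0pos.le hc 2
      linarith
    linarith
  obtain ⟨lam, hlam, hlamlt, hlamb⟩ : ∃ lam : ℝ, 0 ≤ lam ∧ lam < lam0 ∧
      ∀ i, EE (fun x => |f x - f (flp i x)|) ≤ 2 * lam := by
    rcases isEmpty_or_nonempty (Fin N) with he | hne
    · exact ⟨0, le_rfl, hlam0pos, fun i => (he.false i).elim⟩
    · obtain ⟨i0, hi0⟩ := Finite.exists_max (fun i => EE (fun x => |f x - f (flp i x)|))
      refine ⟨EE (fun x => |f x - f (flp i0 x)|) / 2, ?_, ?_, fun i => ?_⟩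
      · exact div_nonneg (EE_nonneg fun x => abs_nonneg _) (by norm_num)
      · have := hL1 i0
        linarith
      · have := hi0 i
        linarith
  obtain ⟨g, _, _, _, hgβ, hgc⟩ := tree_trunc m hm f H.f0 H.f1 (V / 8) τ lam (by positivity) hτ hlam
    hlamb K hlight K ∅ (fun _ => true) (by simp)
  have hA := AA_root hm hms 1 (fun _ : Fin N => true)
  have hEA : ∀ x, EA ∅ f x = f x := by
    intro x
    unfold EA
    simp only [mix_empty]
    exact EE_const _
  simp only [hEA, mix_empty] at hgc hgβ
  have hA' : H572R2.AA m 1 ∅ (fun _ : Fin N => true) ≤ k := by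
    have : ((1 : ℕ) : ℝ) * k = k := by norm_num
    rw [this] at hA
    exact hA
  have hgβ' : EE (fun x => (f x - g x) ^ 2) ≤ V / 4 := by
    refine hgβ.trans ?_
    have h1 : H572R2.AA m 1 ∅ (fun _ : Fin N => true) / (τ * ((K:ℝ) + 1)) ≤ V / 8 := by
      rw [div_le_iff₀ (by positivity)]
      rw [div_le_iff₀ (by positivity)] at hK
      have : V / 8 * (τ * ((K:ℝ) + 1)) = (((K:ℝ) + 1) * (τ * V)) / 8 := by ring
      rw [this]
      linarith
    linarith
  have hcov : EE (fun x => f x * g x) - EE f * EE g ≤ lam / τ * k := by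
    refine (le_abs_self _).trans (hgc.trans ?_)
    gcongr
  have hid : V = EE (fun x => (f x - EE f) * (f x - g x))
      + (EE (fun x => f x * g x) - EE f * EE g) := by
    have h1 : EE (fun x => (f x - EE f) ^ 2)
        = EE (fun x => ((f x - EE f) * (f x - g x) + (f x * g x - EE f * g x))
          - (EE f * f x - EE f * EE f)) := by
      apply EE_congr; intro x; ring
    rw [hVe, h1, EE_sub, EE_add, EE_sub, EE_sub, EE_mul, EE_mul, EE_const]
    ring
  have hyoung : EE (fun x => (f x - EE f) * (f x - g x)) ≤ 1 / 2 * V + 1 / 2 * (V / 4) := by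
    have h1 : EE (fun x => (f x - EE f) * (f x - g x))
        ≤ EE (fun x => 1 / 2 * (f x - EE f) ^ 2 + 1 / 2 * (f x - g x) ^ 2) := by
      apply EE_mono; intro x
      nlinarith [sq_nonneg ((f x - EE f) - (f x - g x))]
    rw [EE_add, EE_mul, EE_mul, ← hVe] at h1
    linarith
  have h1 : 3 * V / 8 ≤ lam / τ * k := by linarith
  have h2 : lam / τ * k < 3 * V / 8 := by
    calc lam / τ * k < lam0 / τ * k := by gcongr
      _ = 3 * V / 8 := by rw [hlam0]; field_simp
  linarith

end Pool.Agent.TH334.AA
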