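import Pool.Agent.TH334.AA.Tilt
import Pool.Agent.TH334.AA.TreeT
import Pool.Agent.H572R4.QB.Main2

/-!
# An influential variable or a tilt-rigid restriction
-/

set_option autoImplicit false

namespace Pool.Agent.TH334.AA

open Finset Pool.Agent.H572R2 Pool.Agent.H572R4.QA

variable {N : ℕ}

theorem var_half (f : (Fin N → Bool) → ℝ) :
    var (fun x => (1 + f x) / 2) = var f / 4 := by
  have hgE : EE (fun x => (1 + f x) / 2) = (1 + EE f) / 2 := by
    have : EE (fun x => (1 + f x) / 2) = EE (fun x => (1 / 2 : ℝ) * (1 + f x)) := by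
      apply EE_congr; intro x; ring
    rw [this, EE_mul, EE_add, EE_const]; ring
  have h2 : EE (fun x => ((1 + f x) / 2) ^ 2) = (1 + 2 * EE f + EE (fun x => f x ^ 2)) / 4 := by
    have : EE (fun x => ((1 + f x) / 2) ^ 2)
        = EE (fun x => (1 / 4 : ℝ) * ((1 + 2 * f x) + f x ^ 2)) := by
      apply EE_congr; intro x; ring
    rw [this, EE_mul, EE_add, EE_add, EE_const, EE_mul]; ring
  unfold var
  rw [h2, hgE]; ring

theorem degLe_const {d : ℕ} (c : ℝ) : DegLe d (fun _ : Fin N → Bool => c) := by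
  intro S hS
  obtain ⟨a, ha⟩ : S.Nonempty := by
    rw [← Finset.card_pos]; omega
  have hinv : ∑ x : Fin N → Bool, c * ∏ i ∈ S, (-1 : ℝ) ^ (x i).toNat
      = ∑ x : Fin N → Bool, -(c * ∏ i ∈ S, (-1 : ℝ) ^ (x i).toNat) := by
    rw [← Equiv.sum_comp (flpEquiv a) (fun x => c * ∏ i ∈ S, (-1 : ℝ) ^ (x i).toNat)]
    refine Finset.sum_congr rfl fun x _ => ?_
    have := e2_chi_flp_same S ha x
    show c * ∏ i ∈ S, (-1 : ℝ) ^ (flp a x i).toNat = _
    rw [this]; ring
  rw [Finset.sum_neg_distrib] at hinv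
  linarith

theorem degLe_half {d : ℕ} (f : (Fin N → Bool) → ℝ) (h : DegLe d f) :
    DegLe d (fun x => (1 + f x) / 2) := by
  intro S hS
  have h1 := h S hS
  have h0 := degLe_const (N := N) (d := d) 1 S hS
  have : ∑ x : Fin N → Bool, (1 + f x) / 2 * ∏ i ∈ S, (-1 : ℝ) ^ (x i).toNat
      = (1 / 2 : ℝ) * (∑ x : Fin N → Bool, 1 * ∏ i ∈ S, (-1 : ℝ) ^ (x i).toNat)
        + (1 / 2 : ℝ) * (∑ x, f x * ∏ i ∈ S, (-1 : ℝ) ^ (x i).toNat) := by
    rw [Finset.mul_sum, Finset.mul_sum, ← Finset.sum_add_distrib]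
    refine Finset.sum_congr rfl fun x _ => ?_
    ring
  rw [this, h0, h1]; ring

/-- The tilt inequality at a node of the decision tree. -/
theorem node_rigid {g : (Fin N → Bool) → ℝ} {w : Fin N → (Fin N → Bool) → ℝ} {ε k s₀ : ℝ}
    (H : Hyp g w ε k s₀) (S : Finset (Fin N)) (a : Fin N → Bool) (τ : ℝ) (hτ0 : 0 ≤ τ)
    (hcold : ∀ i ∈ Sᶜ, Ex S a (w i) ≤ τ) (q : ℝ → ℝ)
    (hq : ∀ s t : ℝ, 0 ≤ s → s ≤ 1 → 0 ≤ t → t ≤ 1 → |q s - q t| ≤ 2 * |s - t|)
    (b : Fin N → ℝ) (hb : ∀ j, |b j| ≤ 1) (lam : ℝ) (hlam : 0 < lam) :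
    |mu b (fun x => q (g (mix S a x))) - EE (fun x => q (g (mix S a x)))|
      ≤ 2 * ε + lam * ∑ j, b j ^ 2 + (2 * τ) * (2 * s₀) / (2 * lam) := by
  have hm := hyp_mix H S a
  refine tilt_abs (fun x => q (g (mix S a x)))
    (fun i x => if i ∈ S then 0 else 2 * w i (mix S a x)) (2 * ε) (2 * τ) (2 * s₀)
    ?_ ?_ ?_ (by positivity) ?_ lam hlam b hb
  · intro i x
    split_ifs
    · exact le_rfl
    · have := H.w0 i (mix S a x); positivity
  · intro x y
    refine (hq _ _ (H.f0 _) (H.f1 _) (H.f0 _) (H.f1 _)).trans ?_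
    have h1 := H.cert (mix S a x) (mix S a y)
    have h2 : 2 * (ε + ∑ i, (if mix S a x i = mix S a y i then 0 else w i (mix S a x)))
        ≤ 2 * ε + ∑ i, (if x i = y i then 0 else (if i ∈ S then 0 else 2 * w i (mix S a x))) := by
      rw [mul_add, Finset.mul_sum]
      refine add_le_add le_rfl (Finset.sum_le_sum fun i _ => ?_)
      by_cases hi : i ∈ S
      · have : mix S a x i = mix S a y i := by unfold mix; rw [if_pos hi, if_pos hi]
        rw [if_pos this, if_pos hi]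
        split_ifs <;> simp
      · rw [if_neg hi]
        have e1 : mix S a x i = x i := by unfold mix; rw [if_neg hi]
        have e2 : mix S a y i = y i := by unfold mix; rw [if_neg hi]
        rw [e1, e2]
        split_ifs <;> simp
    linarith
  · intro x
    have h3 : ∀ i, dd (fun x => q (g (mix S a x))) i x ≤ 2 * dd (fun x => g (mix S a x)) i x := by
      intro i
      unfold dd
      exact hq _ _ (H.f0 _) (H.f1 _) (H.f0 _) (H.f1 _)
    calc ∑ i, dd (fun x => q (g (mix S a x))) i x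
        ≤ ∑ i, 2 * dd (fun x => g (mix S a x)) i x := Finset.sum_le_sum fun i _ => h3 i
      _ = 2 * ∑ i, dd (fun x => g (mix S a x)) i x := by rw [Finset.mul_sum]
      _ ≤ 2 * s₀ := by
          have := hm.infl x
          linarith
  · intro i
    by_cases hi : i ∈ S
    · have : EE (fun x : Fin N → Bool => if i ∈ S then 0 else 2 * w i (mix S a x)) = 0 := by
        have h5 : EE (fun x : Fin N → Bool => if i ∈ S then 0 else 2 * w i (mix S a x))
            = EE (fun _ : Fin N → Bool => (0:ℝ)) := by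
          apply EE_congr; intro x; rw [if_pos hi]
        rw [h5, EE_const]
      rw [this]; positivity
    · have : EE (fun x : Fin N → Bool => if i ∈ S then 0 else 2 * w i (mix S a x))
          = 2 * Ex S a (w i) := by
        unfold Ex
        rw [← EE_mul]
        apply EE_congr; intro x; rw [if_neg hi]
      rw [this]
      have := hcold i (by simpa using hi)
      linarith

/-- An influential variable or a tilt-rigid restriction of few variables. -/
theorem dichotomy (f : (Fin N → Bool) → ℝ) (hf : ∀ x, |f x| ≤ 1) (d : ℕ) (hd : 1 ≤ d)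
    (hdeg : DegLe d f) (hV : 0 < var f) (r δ : ℝ) (hr : 0 < r) (hδ : 0 < δ) :
    (∃ j : Fin N, (1 / (2 ^ 23 * (d : ℝ) ^ 6 * r / (var f * δ ^ 3))) ^ 2
        ≤ EE (fun x => ((f x - f (flp j x)) / 2) ^ 2)) ∨
    (∃ (S : Finset (Fin N)) (a : Fin N → Bool),
      (S.card : ℝ) ≤ 2 ^ 23 * (d : ℝ) ^ 6 * r / (var f * δ ^ 3) ∧
      var f / 8 ≤ var (fun x => f (mix S a x)) ∧
      ∀ b : Fin N → ℝ, (∀ j, |b j| ≤ 1) → ∑ j, b j ^ 2 ≤ r → ∀ q : ℝ → ℝ,
        (∀ s t : ℝ, |s| ≤ 1 → |t| ≤ 1 → |q s - q t| ≤ |s - t|) →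
        |mu b (fun x => q (f (mix S a x))) - EE (fun x => q (f (mix S a x)))| ≤ δ) := by
  classical
  by_contra hcon
  rw [not_or] at hcon
  obtain ⟨hno, hrig⟩ := hcon
  have hd1 : (1:ℝ) ≤ d := by exact_mod_cast hd
  have hd0 : (0:ℝ) < d := by linarith
  set g : (Fin N → Bool) → ℝ := fun x => (1 + f x) / 2 with hg
  have hg0 : ∀ x, 0 ≤ g x := fun x => by
    have := abs_le.1 (hf x); simp only [hg]; linarith [this.1]
  have hg1 : ∀ x, g x ≤ 1 := fun x => by
    have := abs_le.1 (hf x); simp only [hg]; linarith [this.2]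
  have hgv : var g = var f / 4 := var_half f
  have hgdeg : DegLe d g := degLe_half f hdeg
  obtain ⟨w, H⟩ := hyp_exists d hd g hg0 hg1 hgdeg (δ / 4) (by positivity)
  have hk : (0:ℝ) < 512 * (d:ℝ) ^ 4 / (δ / 4) := by positivity
  set τ : ℝ := δ ^ 2 / (128 * d ^ 2 * r) with hτ
  have hτ0 : 0 < τ := by positivity
  have hM : 8 * (512 * (d:ℝ) ^ 4 / (δ / 4)) / (τ * var g)
      = 2 ^ 23 * (d : ℝ) ^ 6 * r / (var f * δ ^ 3) := by
    rw [hgv, hτ]; field_simp; ring
  obtain ⟨i, hi⟩ := inf_trunc H hk τ hτ0 (var g) rfl (by rw [hgv]; positivity)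
    ⌊8 * (512 * (d:ℝ) ^ 4 / (δ / 4)) / (τ * var g)⌋₊ (Nat.lt_floor_add_one _).le (by
    intro S a hScard hS
    by_contra hvar
    push Not at hvar
    apply hrig
    refine ⟨S, a, ?_, ?_, ?_⟩
    · rw [← hM]
      have h0 : 0 ≤ 8 * (512 * (d:ℝ) ^ 4 / (δ / 4)) / (τ * var g) := by
        rw [hM]; positivity
      exact (Nat.le_floor_iff h0).1 hScard
    · have h1 : var (fun x => g (mix S a x)) = var (fun x => f (mix S a x)) / 4 :=
        var_half (fun x => f (mix S a x))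
      rw [h1, hgv] at hvar
      linarith
    · intro b hb hbr q hq
      have h1 := node_rigid H S a τ hτ0.le hS (fun s => q (2 * s - 1)) (by
        intro s t hs0 hs1 ht0 ht1
        refine (hq _ _ (abs_le.2 ⟨by linarith, by linarith⟩)
          (abs_le.2 ⟨by linarith, by linarith⟩)).trans (le_of_eq ?_)
        have : 2 * s - 1 - (2 * t - 1) = 2 * (s - t) := by ring
        rw [this, abs_mul]
        norm_num) b hb (δ / (4 * r)) (by positivity)
      have h2 : ∀ x : Fin N → Bool, 2 * g x - 1 = f x := by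
        intro x; simp only [hg]; ring
      simp only [h2] at h1
      refine h1.trans ?_
      have h3 : δ / (4 * r) * ∑ j, b j ^ 2 ≤ δ / 4 := by
        calc δ / (4 * r) * ∑ j, b j ^ 2 ≤ δ / (4 * r) * r := by gcongr
          _ = δ / 4 := by field_simp
      have h4 : 2 * τ * (2 * (4 * (d:ℝ) ^ 2)) / (2 * (δ / (4 * r))) = δ / 4 := by
        rw [hτ]; field_simp; ring
      linarith)
  apply hno
  refine ⟨i, ?_⟩
  have hE : EE (fun x => ((f x - f (flp i x)) / 2) ^ 2)
      = 4 * EE (fun x => ((g x - g (flp i x)) / 2) ^ 2) := by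
    rw [← EE_mul]
    apply EE_congr; intro x; simp only [hg]; ring
  rw [hE]
  have h5 : (1 / (2 ^ 23 * (d : ℝ) ^ 6 * r / (var f * δ ^ 3))) ^ 2
      ≤ 4 * (3 * var g * τ / (8 * (512 * (d:ℝ) ^ 4 / (δ / 4)))) ^ 2 := by
    have h6 : 3 * var g * τ / (8 * (512 * (d:ℝ) ^ 4 / (δ / 4)))
        = 3 * (1 / (2 ^ 23 * (d : ℝ) ^ 6 * r / (var f * δ ^ 3))) := by
      rw [hgv, hτ]; field_simp; ring
    rw [h6]
    have h7 : 0 ≤ (1 / (2 ^ 23 * (d : ℝ) ^ 6 * r / (var f * δ ^ 3))) ^ 2 := sq_nonneg _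
    nlinarith
  linarith

end Pool.Agent.TH334.AA
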