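import Pool.Agent.TH334.AA.Crit

/-!
# An influential variable or a restriction with rigid law and no influential variable, under all
small tilts
-/

set_option autoImplicit false

namespace Pool.Agent.TH334.AA

open Finset Pool.Agent.H572R2 Pool.Agent.H572R4.QA

variable {N : ℕ}

theorem mix_cert {g : (Fin N → Bool) → ℝ} {w : Fin N → (Fin N → Bool) → ℝ} {ε k s₀ : ℝ}
    (H : Hyp g w ε k s₀) (S : Finset (Fin N)) (a x y : Fin N → Bool) :
    |g (mix S a x) - g (mix S a y)|
      ≤ ε + ∑ i, (if x i = y i then 0 else (if i ∈ S then 0 else w i (mix S a x))) := by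
  refine (H.cert (mix S a x) (mix S a y)).trans ?_
  refine add_le_add le_rfl (Finset.sum_le_sum fun i _ => ?_)
  by_cases hi : i ∈ S
  · have : mix S a x i = mix S a y i := by unfold mix; rw [if_pos hi, if_pos hi]
    rw [if_pos this, if_pos hi]
    split_ifs <;> simp
  · rw [if_neg hi]
    have e1 : mix S a x i = x i := by unfold mix; rw [if_neg hi]
    have e2 : mix S a y i = y i := by unfold mix; rw [if_neg hi]
    rw [e1, e2]

/-- At a cold node the average sensitivity of every coordinate is small, for every small tilt. -/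
theorem node_infl {g : (Fin N → Bool) → ℝ} {w : Fin N → (Fin N → Bool) → ℝ} {ε k s₀ : ℝ}
    (H : Hyp g w ε k s₀) (S : Finset (Fin N)) (a : Fin N → Bool) (τ : ℝ) (hτ0 : 0 ≤ τ)
    (hε0 : 0 ≤ ε)
    (hcold : ∀ i ∈ Sᶜ, Ex S a (w i) ≤ τ) (j : Fin N)
    (b : Fin N → ℝ) (hb : ∀ j, |b j| ≤ 1) (lam : ℝ) (hlam : 0 < lam) :
    mu b (dd (fun x => g (mix S a x)) j)
      ≤ (ε + τ) + (2 * ε + lam * ∑ j, b j ^ 2 + (2 * τ) * (2 * s₀) / (2 * lam)) := by
  have hm := hyp_mix H S a
  set G : (Fin N → Bool) → ℝ := fun x => g (mix S a x) with hG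
  have hs₀ : 0 ≤ s₀ := by
    refine le_trans ?_ (H.infl (fun _ => true))
    exact Finset.sum_nonneg fun i _ => abs_nonneg _
  have hflp : ∀ (x y : Fin N → Bool) (i : Fin N), flp j x i = flp j y i ↔ x i = y i := by
    intro x y i
    by_cases hi : i = j
    · subst hi
      rw [flp_same, flp_same]
      cases x i <;> cases y i <;> simp
    · rw [flp_ne hi, flp_ne hi]
  have h1 := tilt_abs (dd G j)
    (fun i x => if i ∈ S then 0 else w i (mix S a x) + w i (mix S a (flp j x)))
    (2 * ε) (2 * τ) (2 * s₀)
    (by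
      intro i x
      split_ifs
      · exact le_rfl
      · exact add_nonneg (H.w0 i _) (H.w0 i _))
    (by
      intro x y
      have e1 : |dd G j x - dd G j y| ≤ |G x - G y| + |G (flp j x) - G (flp j y)| := by
        unfold dd
        refine (abs_abs_sub_abs_le_abs_sub _ _).trans ?_
        have : G x - G (flp j x) - (G y - G (flp j y))
            = (G x - G y) - (G (flp j x) - G (flp j y)) := by ring
        rw [this]
        exact abs_sub _ _
      have e2 := mix_cert H S a x y
      have e3 := mix_cert H S a (flp j x) (flp j y)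
      simp only [hflp] at e3
      refine e1.trans ((add_le_add e2 e3).trans (le_of_eq ?_))
      have e4 : ∀ i : Fin N, (if x i = y i then 0
          else (if i ∈ S then 0 else w i (mix S a x) + w i (mix S a (flp j x))))
          = (if x i = y i then 0 else (if i ∈ S then 0 else w i (mix S a x)))
            + (if x i = y i then 0 else (if i ∈ S then 0 else w i (mix S a (flp j x)))) := by
        intro i
        split_ifs <;> simp
      rw [Finset.sum_congr rfl fun i _ => e4 i, Finset.sum_add_distrib]
      ring)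
    (by
      intro x
      have e1 : ∀ i, dd (dd G j) i x ≤ dd G i x + dd G i (flp j x) := by
        intro i
        unfold dd
        refine (abs_abs_sub_abs_le_abs_sub _ _).trans ?_
        rw [flp_comm j i]
        have : G x - G (flp j x) - (G (flp i x) - G (flp i (flp j x)))
            = (G x - G (flp i x)) - (G (flp j x) - G (flp i (flp j x))) := by ring
        rw [this]
        exact abs_sub _ _
      refine (Finset.sum_le_sum fun i _ => e1 i).trans ?_
      rw [Finset.sum_add_distrib]
      have := hm.infl x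
      have := hm.infl (flp j x)
      linarith) (by positivity)
    (by
      intro i
      by_cases hi : i ∈ S
      · have h5 : EE (fun x : Fin N → Bool =>
            if i ∈ S then 0 else w i (mix S a x) + w i (mix S a (flp j x)))
            = EE (fun _ : Fin N → Bool => (0:ℝ)) := by
          apply EE_congr; intro x; rw [if_pos hi]
        rw [h5, EE_const]; positivity
      · have h5 : EE (fun x : Fin N → Bool =>
            if i ∈ S then 0 else w i (mix S a x) + w i (mix S a (flp j x)))
            = Ex S a (w i) + Ex S a (w i) := by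
          have e1 : EE (fun x : Fin N → Bool =>
              if i ∈ S then 0 else w i (mix S a x) + w i (mix S a (flp j x)))
              = EE (fun x : Fin N → Bool => w i (mix S a x)
                + (fun y => w i (mix S a y)) (flp j x)) := by
            apply EE_congr; intro x; rw [if_neg hi]
          rw [e1, EE_add, EE_flp j (fun y => w i (mix S a y))]
          rfl
        rw [h5]
        have := hcold i (by simpa using hi)
        linarith)
    lam hlam b hb
  have h2 : EE (dd G j) ≤ ε + τ := by
    by_cases hj : j ∈ S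
    · have : EE (dd G j) = 0 := by
        rw [← EE_const (N := N) 0]
        apply EE_congr
        intro x
        unfold dd
        simp only [hG]
        rw [mix_flp_mem hj]
        simp
      rw [this]; positivity
    · have h3 : ∀ x, dd G j x ≤ ε + w j (mix S a x) := by
        intro x
        refine (mix_cert H S a x (flp j x)).trans ?_
        refine add_le_add le_rfl (le_of_eq ?_)
        rw [Finset.sum_eq_single j]
        · rw [if_neg (by rw [flp_same]; cases x j <;> simp), if_neg hj]
        · intro i _ hi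
          rw [flp_ne hi, if_pos rfl]
        · intro h; exact absurd (Finset.mem_univ j) h
      refine (EE_mono h3).trans ?_
      rw [EE_add, EE_const]
      have := hcold j (by simpa using hj)
      unfold Ex at this
      linarith
  have h3 := (abs_le.1 h1).2
  linarith

/-- An influential variable, or a restriction of few variables that is rigid and has no influential
variable under all small tilts. -/
theorem dichotomy2 (f : (Fin N → Bool) → ℝ) (hf : ∀ x, |f x| ≤ 1) (d : ℕ) (hd : 1 ≤ d)
    (hdeg : DegLe d f) (hV : 0 < var f) (r δ : ℝ) (hr : 1 ≤ r) (hδ : 0 < δ) (hδ1 : δ ≤ 1) :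
    (∃ j : Fin N, (1 / (2 ^ 25 * (d : ℝ) ^ 6 * r / (var f * δ ^ 3))) ^ 2
        ≤ EE (fun x => ((f x - f (flp j x)) / 2) ^ 2)) ∨
    (∃ (S : Finset (Fin N)) (a : Fin N → Bool),
      (S.card : ℝ) ≤ 2 ^ 25 * (d : ℝ) ^ 6 * r / (var f * δ ^ 3) ∧
      var f / 8 ≤ var (fun x => f (mix S a x)) ∧
      ∀ b : Fin N → ℝ, (∀ j, |b j| ≤ 1) → ∑ j, b j ^ 2 ≤ r →
        (∀ q : ℝ → ℝ, (∀ s t : ℝ, |s| ≤ 1 → |t| ≤ 1 → |q s - q t| ≤ |s - t|) →
          |mu b (fun x => q (f (mix S a x))) - EE (fun x => q (f (mix S a x)))| ≤ δ) ∧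
        (∀ j : Fin N, mu b (fun x => |(f (mix S a x) - f (mix S a (flp j x))) / 2|) ≤ δ)) := by
  classical
  by_contra hcon
  rw [not_or] at hcon
  obtain ⟨hno, hrig⟩ := hcon
  have hd1 : (1:ℝ) ≤ d := by exact_mod_cast hd
  have hd0 : (0:ℝ) < d := by linarith
  have hr0 : 0 < r := by linarith
  set g : (Fin N → Bool) → ℝ := fun x => (1 + f x) / 2 with hg
  have hg0 : ∀ x, 0 ≤ g x := fun x => by
    have := abs_le.1 (hf x); simp only [hg]; linarith [this.1]
  have hg1 : ∀ x, g x ≤ 1 := fun x => by
    have := abs_le.1 (hf x); simp only [hg]; linarith [this.2]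
  have hgv : var g = var f / 4 := var_half f
  have hgdeg : DegLe d g := degLe_half f hdeg
  obtain ⟨w, H⟩ := hyp_exists d hd g hg0 hg1 hgdeg (δ / 6) (by positivity)
  have hk : (0:ℝ) < 512 * (d:ℝ) ^ 4 / (δ / 6) := by positivity
  set τ : ℝ := δ ^ 2 / (288 * d ^ 2 * r) with hτ
  have hτ0 : 0 < τ := by positivity
  have hτδ : τ ≤ δ / 288 := by
    rw [hτ, div_le_div_iff₀ (by positivity) (by norm_num)]
    have h1 : (1:ℝ) ≤ (d:ℝ) ^ 2 * r := by
      have : (1:ℝ) ≤ (d:ℝ) ^ 2 := one_le_pow₀ hd1
      nlinarith
    nlinarith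
  have hM0 : 8 * (512 * (d:ℝ) ^ 4 / (δ / 6)) / (τ * var g)
      = 28311552 * (d : ℝ) ^ 6 * r / (var f * δ ^ 3) := by
    rw [hgv, hτ]; field_simp; norm_num
  have hM : 28311552 * (d : ℝ) ^ 6 * r / (var f * δ ^ 3)
      ≤ 2 ^ 25 * (d : ℝ) ^ 6 * r / (var f * δ ^ 3) := by
    gcongr
    norm_num
  obtain ⟨i, hi⟩ := inf_trunc H hk τ hτ0 (var g) rfl (by rw [hgv]; positivity)
    ⌊8 * (512 * (d:ℝ) ^ 4 / (δ / 6)) / (τ * var g)⌋₊ (Nat.lt_floor_add_one _).le (by
    intro S a hScard hS
    by_contra hvar
    push Not at hvar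
    apply hrig
    refine ⟨S, a, ?_, ?_, ?_⟩
    · refine le_trans ?_ hM
      rw [← hM0]
      have h0 : 0 ≤ 8 * (512 * (d:ℝ) ^ 4 / (δ / 6)) / (τ * var g) := by
        rw [hM0]; positivity
      exact (Nat.le_floor_iff h0).1 hScard
    · have h1 : var (fun x => g (mix S a x)) = var (fun x => f (mix S a x)) / 4 :=
        var_half (fun x => f (mix S a x))
      rw [h1, hgv] at hvar
      linarith
    · intro b hb hbr
      have h3 : δ / (6 * r) * ∑ j, b j ^ 2 ≤ δ / 6 := by
        calc δ / (6 * r) * ∑ j, b j ^ 2 ≤ δ / (6 * r) * r := by gcongr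
          _ = δ / 6 := by field_simp
      have h4 : 2 * τ * (2 * (4 * (d:ℝ) ^ 2)) / (2 * (δ / (6 * r))) = δ / 6 := by
        rw [hτ]; field_simp; norm_num
      constructor
      · intro q hq
        have h1 := node_rigid H S a τ hτ0.le hS (fun s => q (2 * s - 1)) (by
          intro s t hs0 hs1 ht0 ht1
          refine (hq _ _ (abs_le.2 ⟨by linarith, by linarith⟩)
            (abs_le.2 ⟨by linarith, by linarith⟩)).trans (le_of_eq ?_)
          have : 2 * s - 1 - (2 * t - 1) = 2 * (s - t) := by ring
          rw [this, abs_mul]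
          norm_num) b hb (δ / (6 * r)) (by positivity)
        have h2 : ∀ x : Fin N → Bool, 2 * g x - 1 = f x := by
          intro x; simp only [hg]; ring
        simp only [h2] at h1
        refine h1.trans ?_
        linarith
      · intro j
        have h1 := node_infl H S a τ hτ0.le (by positivity) hS j b hb (δ / (6 * r)) (by positivity)
        have h2 : mu b (fun x => |(f (mix S a x) - f (mix S a (flp j x))) / 2|)
            = mu b (dd (fun x => g (mix S a x)) j) := by
          unfold mu
          apply EE_congr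
          intro x
          congr 1
          unfold dd
          simp only [hg]
          congr 1
          ring
        rw [h2]
        refine h1.trans ?_
        linarith)
  apply hno
  refine ⟨i, ?_⟩
  have hE : EE (fun x => ((f x - f (flp i x)) / 2) ^ 2)
      = 4 * EE (fun x => ((g x - g (flp i x)) / 2) ^ 2) := by
    rw [← EE_mul]
    apply EE_congr; intro x; simp only [hg]; ring
  rw [hE]
  have h6 : 3 * var g * τ / (8 * (512 * (d:ℝ) ^ 4 / (δ / 6)))
      = 3 * (1 / (28311552 * (d : ℝ) ^ 6 * r / (var f * δ ^ 3))) := by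
    rw [hgv, hτ]; field_simp; norm_num
  rw [h6] at hi
  have h7 : 1 / (2 ^ 25 * (d : ℝ) ^ 6 * r / (var f * δ ^ 3))
      ≤ 1 / (28311552 * (d : ℝ) ^ 6 * r / (var f * δ ^ 3)) :=
    one_div_le_one_div_of_le (by positivity) hM
  have h8 : (1 / (2 ^ 25 * (d : ℝ) ^ 6 * r / (var f * δ ^ 3))) ^ 2
      ≤ (1 / (28311552 * (d : ℝ) ^ 6 * r / (var f * δ ^ 3))) ^ 2 :=
    pow_le_pow_left₀ (by positivity) h7 2
  have h9 : 0 ≤ (1 / (28311552 * (d : ℝ) ^ 6 * r / (var f * δ ^ 3))) ^ 2 := sq_nonneg _
  nlinarith

end Pool.Agent.TH334.AA
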