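import Pool.Agent.TH334.AA.Tilt
import Pool.Agent.TH334.AA.Conv

/-!
# Pinned coordinates and the level one bound
-/

set_option autoImplicit false

namespace Pool.Agent.TH334.AA

open Finset Polynomial Pool.Agent.H572R2 Pool.Agent.H572R4.QA

variable {N : ℕ}

theorem mu_add (b : Fin N → ℝ) (g g' : (Fin N → Bool) → ℝ) :
    mu b (fun x => g x + g' x) = mu b g + mu b g' := by
  unfold mu
  rw [← EE_add]
  apply EE_congr
  intro x
  ring

theorem mu_congr (b : Fin N → ℝ) {g g' : (Fin N → Bool) → ℝ} (h : ∀ x, g x = g' x) :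
    mu b g = mu b g' := by
  have : g = g' := funext h
  rw [this]

theorem mu_pin (b : Fin N → ℝ) (j : Fin N) (c : Bool) (f : (Fin N → Bool) → ℝ) :
    mu (Function.update b j (sg c)) f
      = mu (Function.update b j 0) (fun x => f (Function.update x j c)) := by
  rw [mu_split (Function.update b j (sg c)) j f, Function.update_idem, Function.update_self]
  set b₀ := Function.update b j 0 with hb₀
  set G : (Fin N → Bool) → ℝ := fun x => f x + sg c * (f x * sg (x j)) with hG
  have h1 : mu b₀ f
      + sg c * mu b₀ (fun x => f x * sg (x j))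
      = mu b₀ G := by
    rw [hG, mu_add, mu_smul]
  have h2 : mu b₀ (fun x => G (flp j x)) = mu b₀ G :=
    mu_flp _ j (by simp [hb₀]) G
  have h3 : mu b₀ (fun x => f (Function.update x j c))
      = mu b₀ (fun x => 1 / 2 * (G x + G (flp j x))) := by
    apply mu_congr
    intro x
    have e1 : f (Function.update x j c) = 1 / 2 * (G x + G (flp j x)) := by
      simp only [hG]
      rw [sg_flp]
      by_cases hx : x j = c
      · have : Function.update x j c = x := by rw [← hx]; exact Function.update_eq_self j x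
        rw [this, hx]
        cases c
        · simp [sg]; ring
        · simp [sg]; ring
      · have h4 : c = !(x j) := by
          cases c <;> cases hxj : x j <;> simp_all
        have : Function.update x j c = flp j x := by rw [h4]; rfl
        rw [this]
        have h5 : sg c * sg (x j) = -1 := by
          rw [h4]
          cases x j <;> simp [sg]
        have h6 : 1 / 2 * (f x + sg c * (f x * sg (x j))
            + (f (flp j x) + sg c * (f (flp j x) * -sg (x j))))
            = 1 / 2 * (f x * (1 + sg c * sg (x j)) + f (flp j x) * (1 - sg c * sg (x j))) := by ring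
        rw [h6, h5]; ring
    exact e1
  rw [h1, h3, mu_smul b₀ (1 / 2) (fun x => G x + G (flp j x)), mu_add b₀ G (fun x => G (flp j x)), h2]
  ring

theorem mu_mix (S : Finset (Fin N)) (a : Fin N → Bool) :
    ∀ (b : Fin N → ℝ) (f : (Fin N → Bool) → ℝ),
    mu (fun j => if j ∈ S then sg (a j) else b j) f
      = mu (fun j => if j ∈ S then 0 else b j) (fun x => f (mix S a x)) := by
  induction S using Finset.induction_on with
  | empty =>
    intro b f
    simp only [Finset.notMem_empty, if_false, mix_empty]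
  | insert i S hi ih =>
    intro b f
    have e1 : (fun j => if j ∈ insert i S then sg (a j) else b j)
        = Function.update (fun j => if j ∈ S then sg (a j) else b j) i (sg (a i)) := by
      funext j
      by_cases hj : j = i
      · subst hj; simp
      · simp [hj]
    have e2 : Function.update (fun j => if j ∈ S then sg (a j) else b j) i 0
        = (fun j => if j ∈ S then sg (a j) else Function.update b i 0 j) := by
      funext j
      by_cases hj : j = i
      · subst hj; simp [hi]
      · simp [hj]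
    have e3 : (fun j => if j ∈ S then 0 else Function.update b i 0 j)
        = (fun j => if j ∈ insert i S then 0 else b j) := by
      funext j
      by_cases hj : j = i
      · subst hj; simp
      · simp [hj]
    rw [e1, mu_pin, e2, ih, e3]
    apply mu_congr
    intro x
    have : Function.update (mix S a x) i (a i) = mix (insert i S) a x := by
      funext j
      unfold mix
      by_cases hj : j = i
      · subst hj; simp
      · simp [hj]
    rw [this]

theorem mu_zero (g : (Fin N → Bool) → ℝ) : mu (fun _ => 0) g = EE g := by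
  unfold mu
  simp

/-- The mean over a subcube as a product measure. -/
theorem mu_sub (S : Finset (Fin N)) (a : Fin N → Bool) (f : (Fin N → Bool) → ℝ) :
    mu (fun j => if j ∈ S then sg (a j) else 0) f = EE (fun x => f (mix S a x)) := by
  rw [mu_mix S a (fun _ => 0) f]
  have : (fun j => if j ∈ S then (0:ℝ) else 0) = fun _ : Fin N => (0:ℝ) := by
    funext j; simp
  rw [this, mu_zero]

theorem abs_sg (c : Bool) : |sg c| = 1 := by cases c <;> simp [sg]

theorem sg_eq (c : Bool) : sg c = - (-1 : ℝ) ^ c.toNat := by cases c <;> simp [sg]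

theorem lev_mem (f : (Fin N → Bool) → ℝ) (S : Finset (Fin N)) (a : Fin N → Bool) (i : Fin N)
    (hi : i ∈ S) : lev (fun x => f (mix S a x)) i = 0 := by
  unfold lev
  have h1 : EE (fun x : Fin N → Bool => f (mix S a (flp i x)) * (-1 : ℝ) ^ (flp i x i).toNat)
      = EE (fun x => f (mix S a x) * (-1 : ℝ) ^ (x i).toNat) :=
    EE_flp i (fun x => f (mix S a x) * (-1 : ℝ) ^ (x i).toNat)
  have h2 : EE (fun x : Fin N → Bool => f (mix S a (flp i x)) * (-1 : ℝ) ^ (flp i x i).toNat)
      = EE (fun x => (-1) * (f (mix S a x) * (-1 : ℝ) ^ (x i).toNat)) := by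
    apply EE_congr
    intro x
    rw [mix_flp_mem hi, flp_same]
    cases x i <;> simp
  rw [h2, EE_mul] at h1
  linarith

/-- Fourier coefficients with respect to `sg`. -/
noncomputable def gh (g : (Fin N → Bool) → ℝ) (S : Finset (Fin N)) : ℝ :=
  EE (fun x => g x * ∏ j ∈ S, sg (x j))

theorem gh_deg {d : ℕ} {g : (Fin N → Bool) → ℝ} (hd : DegLe d g) (S : Finset (Fin N))
    (hS : d < S.card) : gh g S = 0 := by
  unfold gh EE
  have h1 : ∑ x : Fin N → Bool, g x * ∏ j ∈ S, sg (x j)
      = (-1) ^ S.card * ∑ x : Fin N → Bool, g x * ∏ i ∈ S, (-1 : ℝ) ^ (x i).toNat := by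
    rw [Finset.mul_sum]
    apply Finset.sum_congr rfl
    intro x _
    have : ∏ j ∈ S, sg (x j) = (-1) ^ S.card * ∏ i ∈ S, (-1 : ℝ) ^ (x i).toNat := by
      rw [← Finset.prod_const, ← Finset.prod_mul_distrib]
      apply Finset.prod_congr rfl
      intro j _
      rw [sg_eq]; ring
    rw [this]; ring
  rw [h1, hd S hS]; simp

theorem mu_expand (g : (Fin N → Bool) → ℝ) (b : Fin N → ℝ) :
    mu b g = ∑ S : Finset (Fin N), gh g S * ∏ j ∈ S, b j := by
  unfold mu gh
  have h1 : ∀ S : Finset (Fin N), EE (fun x => g x * ∏ j ∈ S, sg (x j)) * ∏ j ∈ S, b j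
      = EE (fun x => (∏ j ∈ S, b j) * (g x * ∏ j ∈ S, sg (x j))) := by
    intro S
    rw [EE_mul]; ring
  rw [Finset.sum_congr rfl fun S _ => h1 S, ← EE_sum]
  apply EE_congr
  intro x
  have h2 : ∏ j, (1 + b j * sg (x j)) = ∑ S : Finset (Fin N), ∏ j ∈ S, (b j * sg (x j)) := by
    rw [Finset.prod_one_add, Finset.powerset_univ]
  rw [h2, Finset.mul_sum]
  apply Finset.sum_congr rfl
  intro S _
  rw [Finset.prod_mul_distrib]
  ring

theorem level_poly {d : ℕ} {g : (Fin N → Bool) → ℝ} (hd : DegLe d g) (b : Fin N → ℝ) :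
    ∃ P : ℝ[X], P.natDegree ≤ d ∧ (∀ t : ℝ, P.eval t = mu (fun j => t * b j) g) ∧
      (derivative P).eval 0 = ∑ j, b j * gh g {j} := by
  refine ⟨∑ S : Finset (Fin N), C (gh g S * ∏ j ∈ S, b j) * X ^ S.card, ?_, ?_, ?_⟩
  · refine natDegree_sum_le_of_forall_le _ _ fun S _ => ?_
    by_cases hS : d < S.card
    · rw [gh_deg hd S hS]; simp
    · push Not at hS
      exact (natDegree_C_mul_X_pow_le _ _).trans hS
  · intro t
    rw [mu_expand, eval_finsetSum]
    apply Finset.sum_congr rfl
    intro S _
    rw [eval_mul, eval_C, eval_pow, eval_X, Finset.prod_mul_distrib, Finset.prod_const]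
    ring
  · rw [← coeff_zero_eq_eval_zero, coeff_derivative, finsetSum_coeff]
    simp only [coeff_C_mul_X_pow]
    rw [← Finset.sum_filter]
    have h1 : (Finset.univ : Finset (Finset (Fin N))).filter (fun S => 0 + 1 = S.card)
        = (Finset.univ : Finset (Fin N)).map ⟨singleton, Finset.singleton_injective⟩ := by
      ext S
      simp only [Finset.mem_filter, Finset.mem_univ, true_and, Finset.mem_map,
        Function.Embedding.coeFn_mk, zero_add]
      rw [eq_comm, Finset.card_eq_one]
      constructor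
      · rintro ⟨a, rfl⟩; exact ⟨a, rfl⟩
      · rintro ⟨a, rfl⟩; exact ⟨a, rfl⟩
    rw [h1, Finset.sum_map]
    simp only [Function.Embedding.coeFn_mk, Finset.prod_singleton]
    push_cast
    rw [zero_add, mul_one]
    apply Finset.sum_congr rfl
    intro j _
    ring

/-- Markov's inequality at the end point `0` of `[0,1]`. -/
theorem markov_zero {d : ℕ} {P : ℝ[X]} (hP : P.natDegree ≤ d) {B : ℝ}
    (hB : ∀ t : ℝ, 0 ≤ t → t ≤ 1 → |P.eval t - P.eval 0| ≤ B) :
    |(derivative P).eval 0| ≤ 2 * (d : ℝ) ^ 2 * B := by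
  set Q : ℝ[X] := P.comp (C (1 / 2) - C (1 / 2) * X) - C (P.eval 0) with hQ
  have hQd : Q.natDegree ≤ d := by
    refine (natDegree_sub_le _ _).trans (max_le ?_ (by simp))
    refine natDegree_comp_le.trans ?_
    calc P.natDegree * (C (1 / 2) - C (1 / 2) * X : ℝ[X]).natDegree
        ≤ d * 1 := Nat.mul_le_mul hP (by
          refine (natDegree_sub_le _ _).trans ?_
          refine max_le (by simp) ?_
          exact (natDegree_C_mul_le _ _).trans (by simp))
      _ = d := mul_one d
  have h1 := Pool.Agent.H722R2.AA.markov_end hQd (B := B) (by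
    intro s hs
    have : Q.eval s = P.eval ((1 - s) / 2) - P.eval 0 := by
      simp only [hQ, eval_sub, eval_comp, eval_mul, eval_C, eval_X]
      congr 2
      ring
    rw [this]
    exact hB _ (by linarith [hs.2]) (by linarith [hs.1]))
  have h2 : (derivative Q).eval 1 = - (1 / 2) * (derivative P).eval 0 := by
    simp only [hQ, derivative_sub, derivative_comp, derivative_mul, derivative_C, derivative_X,
      zero_mul, zero_add, mul_one, zero_sub, eval_sub, eval_mul, eval_neg, eval_C, eval_comp,
      eval_X, sub_zero]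
    norm_num
  rw [h2, abs_mul] at h1
  have h3 : |(-(1 / 2) : ℝ)| = 1 / 2 := by rw [abs_neg, abs_of_pos]; norm_num
  rw [h3] at h1
  linarith

/-- Level one weight moves the mean under a small tilt. -/
theorem level_move {d : ℕ} (hd1 : 1 ≤ d) {g : (Fin N → Bool) → ℝ} (hd : DegLe d g) (W : ℝ)
    (hW : W = ∑ i, lev g i ^ 2) (hW0 : 0 < W) :
    ∃ b : Fin N → ℝ, (∀ j, |b j| ≤ 1) ∧ ∑ j, b j ^ 2 ≤ 1 ∧ (∀ j, lev g j = 0 → b j = 0) ∧
      Real.sqrt W / (4 * (d : ℝ) ^ 2) ≤ |mu b g - EE g| := by
  have hs0 : 0 < Real.sqrt W := Real.sqrt_pos.2 hW0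
  have hs2 : Real.sqrt W ^ 2 = W := Real.sq_sqrt hW0.le
  have hd0 : (1:ℝ) ≤ d := by exact_mod_cast hd1
  have hd2 : 0 < (d:ℝ) ^ 2 := by positivity
  set b' : Fin N → ℝ := fun j => - lev g j / Real.sqrt W with hb'
  obtain ⟨P, hP1, hP2, hP3⟩ := level_poly hd b'
  have hgh : ∀ j, gh g {j} = - lev g j := by
    intro j
    unfold gh lev
    have : EE (fun x => g x * ∏ j ∈ {j}, sg (x j)) = EE (fun x => (-1) * (g x * (-1 : ℝ) ^ (x j).toNat)) := by
      apply EE_congr; intro x
      rw [Finset.prod_singleton, sg_eq]; ring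
    rw [this, EE_mul]; ring
  have hder : (derivative P).eval 0 = Real.sqrt W := by
    rw [hP3]
    have : ∀ j, b' j * gh g {j} = lev g j ^ 2 / Real.sqrt W := by
      intro j; rw [hgh]; simp only [hb']; ring
    rw [Finset.sum_congr rfl fun j _ => this j, ← Finset.sum_div, ← hW]
    rw [div_eq_iff hs0.ne', ← sq, hs2]
  have hbsum : ∑ j, b' j ^ 2 = 1 := by
    have : ∀ j, b' j ^ 2 = lev g j ^ 2 / W := by
      intro j; simp only [hb']
      rw [div_pow, hs2, neg_sq]
    rw [Finset.sum_congr rfl fun j _ => this j, ← Finset.sum_div, ← hW]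
    exact div_self hW0.ne'
  have hb1 : ∀ j, |b' j| ≤ 1 := by
    intro j
    have h1 : b' j ^ 2 ≤ ∑ l, b' l ^ 2 :=
      Finset.single_le_sum (f := fun l => b' l ^ 2) (fun l _ => sq_nonneg _) (Finset.mem_univ j)
    rw [hbsum] at h1
    rw [← sq_abs] at h1
    nlinarith [abs_nonneg (b' j)]
  by_contra hcon
  push Not at hcon
  have key : ∀ t : ℝ, 0 ≤ t → t ≤ 1 → |P.eval t - P.eval 0| ≤ Real.sqrt W / (4 * (d : ℝ) ^ 2) := by
    intro t ht0 ht1
    have h1 := hcon (fun j => t * b' j) (by
      intro j
      rw [abs_mul, abs_of_nonneg ht0]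
      nlinarith [hb1 j, abs_nonneg (b' j)]) (by
      have : ∀ j, (t * b' j) ^ 2 = t ^ 2 * b' j ^ 2 := fun j => by ring
      rw [Finset.sum_congr rfl fun j _ => this j, ← Finset.mul_sum, hbsum]
      nlinarith) (by
      intro j hj
      simp only [hb', hj]; simp)
    have h2 : P.eval 0 = EE g := by
      rw [hP2 0]
      have : (fun j => (0:ℝ) * b' j) = fun _ => 0 := by funext j; simp
      rw [this, mu_zero]
    rw [hP2 t, h2]
    exact h1.le
  have h3 := markov_zero hP1 key
  rw [hder, abs_of_pos hs0] at h3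
  have h4 : 2 * (d:ℝ) ^ 2 * (Real.sqrt W / (4 * (d : ℝ) ^ 2)) = Real.sqrt W / 2 := by
    field_simp; norm_num
  rw [h4] at h3
  linarith

end Pool.Agent.TH334.AA
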