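import Pool.Agent.TH334.AA.Crit
import Pool.Agent.TH334.AA.Pin

/-!
# Equivalent forms of the Aaronson-Ambainis conjecture
-/

set_option autoImplicit false

namespace Pool.Agent.TH334.AA

open Finset Pool.Agent.H572R2 Pool.Agent.H572R4.QA

/-- The conjecture with a natural exponent. -/
def P1 : Prop := ∃ (c : ℝ) (M : ℕ), 0 < c ∧ ∀ (N : ℕ) (f : (Fin N → Bool) → ℝ),
  (∀ x, |f x| ≤ 1) → ∀ d : ℕ, 1 ≤ d → DegLe d f → 0 < var f →
    ∃ j : Fin N, c * (var f / d) ^ M ≤ inf1 f j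

/-- Small subcubes with a different mean. -/
def P2 : Prop := ∃ C : ℕ, ∀ (N : ℕ) (f : (Fin N → Bool) → ℝ),
  (∀ x, |f x| ≤ 1) → ∀ d : ℕ, 1 ≤ d → DegLe d f → 0 < var f →
    ∃ (S : Finset (Fin N)) (a : Fin N → Bool), (S.card : ℝ) ≤ (2 * d / var f) ^ C ∧
      (var f / (2 * d)) ^ C ≤ |EE (fun x => f (mix S a x)) - EE f|

/-- Small subcubes with a different variance. -/
def P3 : Prop := ∃ C : ℕ, ∀ (N : ℕ) (f : (Fin N → Bool) → ℝ),
  (∀ x, |f x| ≤ 1) → ∀ d : ℕ, 1 ≤ d → DegLe d f → 0 < var f →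
    ∃ (S : Finset (Fin N)) (a : Fin N → Bool), (S.card : ℝ) ≤ (2 * d / var f) ^ C ∧
      (var f / (2 * d)) ^ C ≤ |var (fun x => f (mix S a x)) - var f|

/-- Small subcubes with level one weight. -/
def P4 : Prop := ∃ C : ℕ, ∀ (N : ℕ) (f : (Fin N → Bool) → ℝ),
  (∀ x, |f x| ≤ 1) → ∀ d : ℕ, 1 ≤ d → DegLe d f → 0 < var f →
    ∃ (S : Finset (Fin N)) (a : Fin N → Bool), (S.card : ℝ) ≤ (2 * d / var f) ^ C ∧
      (var f / (2 * d)) ^ C ≤ ∑ i, lev (fun x => f (mix S a x)) i ^ 2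

/-- Tilts that move the law. -/
def P5 : Prop := ∃ C : ℕ, ∀ (N : ℕ) (f : (Fin N → Bool) → ℝ),
  (∀ x, |f x| ≤ 1) → ∀ d : ℕ, 1 ≤ d → DegLe d f → 0 < var f →
    ∃ b : Fin N → ℝ, (∀ j, |b j| ≤ 1) ∧ ∑ j, b j ^ 2 ≤ (2 * d / var f) ^ C ∧
      ∃ q : ℝ → ℝ, (∀ s t : ℝ, |s| ≤ 1 → |t| ≤ 1 → |q s - q t| ≤ |s - t|) ∧
        (var f / (2 * d)) ^ C ≤ |mu b (fun x => q (f x)) - EE (fun x => q (f x))|

variable {N : ℕ}

theorem var_le_one (f : (Fin N → Bool) → ℝ) (hf : ∀ x, |f x| ≤ 1) : var f ≤ 1 := by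
  unfold var
  have h1 : EE (fun x => f x ^ 2) ≤ 1 := by
    rw [← EE_const (N := N) 1]
    apply EE_mono
    intro x
    have := abs_le.1 (hf x)
    nlinarith [this.1, this.2]
  nlinarith [sq_nonneg (EE f)]

/-- The number `X = 2 d / V`. -/
theorem X_facts (f : (Fin N → Bool) → ℝ) (hf : ∀ x, |f x| ≤ 1) (d : ℕ) (hd : 1 ≤ d)
    (hV : 0 < var f) :
    ∃ X : ℝ, X = 2 * d / var f ∧ 2 ≤ X ∧ (∀ C : ℕ, (var f / (2 * d)) ^ C = 1 / X ^ C) ∧
      (d : ℝ) ≤ X / 2 ∧ var f = 2 * d / X ∧ 1 / X ≤ var f / 2 := by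
  have hd1 : (1:ℝ) ≤ d := by exact_mod_cast hd
  have hV1 := var_le_one f hf
  have hX : 2 ≤ 2 * (d:ℝ) / var f := by
    rw [le_div_iff₀ hV]; nlinarith
  refine ⟨2 * d / var f, rfl, hX, ?_, ?_, ?_, ?_⟩
  · intro C
    rw [one_div, ← inv_pow]
    congr 1
    rw [inv_div]
  · rw [div_div, le_div_iff₀ (by positivity)]
    nlinarith
  · field_simp
  · rw [one_div_div]
    gcongr
    linarith

theorem II_empty (f : (Fin N → Bool) → ℝ) (a : Fin N → Bool) :
    II f ∅ a = ∑ i, inf1 f i := by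
  unfold II
  rw [Finset.compl_empty]
  apply Finset.sum_congr rfl
  intro i _
  rw [← inf1_mix_not_mem f ∅ a i (by simp)]
  simp only [mix_empty]

theorem UU_empty (f : (Fin N → Bool) → ℝ) (a : Fin N → Bool) :
    UU f (EE f) ∅ a = var f := by
  have h := UU_eq f (EE f) ∅ a
  have h1 : Ex ∅ a f = EE f := by
    unfold Ex
    simp only [mix_empty]
  rw [h1] at h
  simp only [mix_empty] at h
  rw [h]; ring

/-- The common part of the greedy trees. -/
theorem greedy_setup (h : P1) : ∃ C : ℕ, 1 ≤ C ∧ ∀ (N : ℕ) (f : (Fin N → Bool) → ℝ),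
    (∀ x, |f x| ≤ 1) → ∀ d : ℕ, 1 ≤ d → DegLe d f → 0 < var f →
    ∃ τ : ℝ, 0 < τ ∧ (∀ (S : Finset (Fin N)) (a : Fin N → Bool),
        var f / 4 < var (fun x => f (mix S a x)) → ∃ i, i ∉ S ∧ τ ≤ Ex S a (JQ f i)) ∧
      16 * d < τ * (⌊(2 * d / var f) ^ C⌋₊ + 1) := by
  obtain ⟨c, M, hc, hAA⟩ := h
  obtain ⟨m, hm⟩ : ∃ m : ℕ, 1 / (2:ℝ) ^ m ≤ c := by
    obtain ⟨m, hm⟩ := exists_pow_lt_of_lt_one hc (by norm_num : (1/2 : ℝ) < 1)
    refine ⟨m, ?_⟩
    rw [one_div_pow] at hm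
    exact hm.le
  refine ⟨m + 2 * M + 4, by omega, ?_⟩
  intro N f hf d hd hdeg hV
  obtain ⟨X, hX, hX2, hXp, hXd, hXV, hX1⟩ := X_facts f hf d hd hV
  have hX0 : 0 < X := by linarith
  have hd1 : (1:ℝ) ≤ d := by exact_mod_cast hd
  refine ⟨1 / X ^ (m + 2 * M), by positivity, ?_, ?_⟩
  · intro S a hvar
    have hV' : 0 < var (fun x => f (mix S a x)) := by linarith
    obtain ⟨j, hj⟩ := hAA N (fun x => f (mix S a x)) (fun x => hf _) d hd
      (degLe_mix d f hdeg S a) hV'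
    have h1 : 1 / X ^ (m + 2 * M) ≤ c * (var (fun x => f (mix S a x)) / d) ^ M := by
      have e1 : 1 / X ^ (m + 2 * M) = 1 / X ^ m * (1 / X ^ 2) ^ M := by
        rw [one_div_pow, ← pow_mul, pow_add]
        field_simp
      have e2 : 1 / X ^ m ≤ c := by
        refine le_trans ?_ hm
        gcongr
      have e3 : 1 / X ^ 2 ≤ var (fun x => f (mix S a x)) / d := by
        have e4 : 1 / X ^ 2 ≤ (var f / 4) / d := by
          rw [hXV, div_le_div_iff₀ (by positivity) (by positivity)]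
          have : 2 * (d:ℝ) / X / 4 * X ^ 2 = d * X / 2 := by field_simp; norm_num
          rw [this]
          nlinarith
        refine e4.trans ?_
        gcongr
      rw [e1]
      have e5 : (0:ℝ) ≤ 1 / X ^ 2 := by positivity
      gcongr
    by_cases hjS : j ∈ S
    · rw [inf1_mix_mem f S a j hjS] at hj
      exfalso
      have : 0 < 1 / X ^ (m + 2 * M) := by positivity
      linarith
    · refine ⟨j, hjS, ?_⟩
      rw [inf1_mix_not_mem f S a j hjS] at hj
      linarith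
  · rw [← hX]
    have h1 : X ^ (m + 2 * M + 4) < (⌊X ^ (m + 2 * M + 4)⌋₊ : ℝ) + 1 := Nat.lt_floor_add_one _
    have h2 : 16 * (d:ℝ) ≤ X ^ 4 := by
      have : 8 * X ≤ X ^ 4 := by
        have : 8 ≤ X ^ 3 := by
          calc (8:ℝ) = 2 ^ 3 := by norm_num
            _ ≤ X ^ 3 := by gcongr
        nlinarith
      linarith
    have h3 : 1 / X ^ (m + 2 * M) * X ^ (m + 2 * M + 4) = X ^ 4 := by
      rw [pow_add X (m + 2 * M) 4]; field_simp
    calc 16 * (d:ℝ) ≤ X ^ 4 := h2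
      _ = 1 / X ^ (m + 2 * M) * X ^ (m + 2 * M + 4) := h3.symm
      _ < 1 / X ^ (m + 2 * M) * ((⌊X ^ (m + 2 * M + 4)⌋₊ : ℝ) + 1) := by
          apply mul_lt_mul_of_pos_left h1 (by positivity)

theorem p1_p2 (h : P1) : P2 := by
  obtain ⟨C, hC1, hC⟩ := greedy_setup h
  refine ⟨C, ?_⟩
  intro N f hf d hd hdeg hV
  obtain ⟨τ, hτ, hnode, hbig⟩ := hC N f hf d hd hdeg hV
  obtain ⟨X, hX, hX2, hXp, hXd, hXV, hX1⟩ := X_facts f hf d hd hV
  have hX0 : 0 < X := by linarith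
  have hd1 : (1:ℝ) ≤ d := by exact_mod_cast hd
  have hV1 := var_le_one f hf
  have hEE : |EE f| ≤ 1 := by
    refine (EE_abs_le f).trans ?_
    rw [← EE_const (N := N) 1]
    exact EE_mono hf
  set K : ℕ := ⌊(2 * d / var f) ^ C⌋₊ with hK
  by_contra hcon
  push Not at hcon
  have hno : ∀ (S : Finset (Fin N)) (a : Fin N → Bool), S.card ≤ K →
      (Ex S a f - EE f) ^ 2 ≤ var f / 4 := by
    intro S a hS
    have h1 : (S.card : ℝ) ≤ (2 * d / var f) ^ C :=
      (Nat.le_floor_iff (by positivity)).1 hS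
    have h2 := (hcon S a h1).le
    rw [hXp] at h2
    have h3 : |Ex S a f - EE f| ≤ var f / 2 := by
      refine h2.trans (le_trans ?_ hX1)
      rw [div_le_div_iff₀ (by positivity) hX0]
      have : X ^ 1 ≤ X ^ C := pow_le_pow_right₀ (by linarith) hC1
      linarith
    have h4 : (Ex S a f - EE f) ^ 2 ≤ (var f / 2) ^ 2 := by
      rw [← sq_abs]
      exact pow_le_pow_left₀ (abs_nonneg _) h3 2
    nlinarith
  have h1 := tree_mean f hf (EE f) hEE (var f / 4) τ (var f / 4) (by positivity) hτ hnode K hno K ∅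
    (fun _ => true) (by simp)
  rw [UU_empty, II_empty] at h1
  have h2 := sum_inf1_le d f hdeg
  have h3 : 4 * ∑ i, inf1 f i / (τ * ((K:ℝ) + 1)) ≤ var f / 4 := by
    rw [← Finset.sum_div]
    have h4 : 0 < τ * ((K:ℝ) + 1) := by positivity
    rw [mul_div_assoc', div_le_iff₀ h4]
    nlinarith
  have h5 : 4 * (∑ i, inf1 f i) / (τ * ((K:ℝ) + 1)) = 4 * ∑ i, inf1 f i / (τ * ((K:ℝ) + 1)) := by
    rw [← Finset.sum_div]; ring
  rw [h5] at h1
  linarith

theorem p1_p3 (h : P1) : P3 := by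
  obtain ⟨C, hC1, hC⟩ := greedy_setup h
  refine ⟨C, ?_⟩
  intro N f hf d hd hdeg hV
  obtain ⟨τ, hτ, hnode, hbig⟩ := hC N f hf d hd hdeg hV
  obtain ⟨X, hX, hX2, hXp, hXd, hXV, hX1⟩ := X_facts f hf d hd hV
  have hX0 : 0 < X := by linarith
  have hd1 : (1:ℝ) ≤ d := by exact_mod_cast hd
  have hV1 := var_le_one f hf
  set K : ℕ := ⌊(2 * d / var f) ^ C⌋₊ with hK
  by_contra hcon
  push Not at hcon
  have hno : ∀ (S : Finset (Fin N)) (a : Fin N → Bool), S.card ≤ K →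
      var f / 4 < var (fun x => f (mix S a x)) := by
    intro S a hS
    have h1 : (S.card : ℝ) ≤ (2 * d / var f) ^ C :=
      (Nat.le_floor_iff (by positivity)).1 hS
    have h2 := hcon S a h1
    rw [hXp] at h2
    have h3 : |var (fun x => f (mix S a x)) - var f| < var f / 2 := by
      refine h2.trans_le (le_trans ?_ hX1)
      rw [div_le_div_iff₀ (by positivity) hX0]
      have : X ^ 1 ≤ X ^ C := pow_le_pow_right₀ (by linarith) hC1
      linarith
    have h4 := (abs_lt.1 h3).1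
    linarith
  have h1 := tree_var f (var f / 4) τ hnode K hno K ∅ (fun _ => true) (by simp)
  rw [II_empty] at h1
  have h2 := sum_inf1_le d f hdeg
  nlinarith

theorem p2_p4 (h : P2) : P4 := by
  obtain ⟨C, hC⟩ := h
  refine ⟨4 * C + 2, ?_⟩
  intro N f hf d hd hdeg hV
  obtain ⟨S₀, a₀, hS₀, hmv⟩ := hC N f hf d hd hdeg hV
  obtain ⟨X, hX, hX2, hXp, hXd, hXV, hX1⟩ := X_facts f hf d hd hV
  have hX0 : 0 < X := by linarith
  have hX1' : 1 ≤ X := by linarith
  rw [← hX] at hS₀ ⊢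
  rw [hXp] at hmv
  have hXC : 0 < X ^ C := by positivity
  by_contra hcon
  push Not at hcon
  rw [hXp] at hcon
  set ρ : ℝ := 1 / (2 * X ^ (2 * C)) with hρ
  have hρ0 : 0 < ρ := by positivity
  have hno : ∀ (S : Finset (Fin N)) (a : Fin N → Bool) (i : Fin N), S.card ≤ S₀.card →
      |lev (fun x => f (mix S a x)) i| ≤ ρ := by
    intro S a i hS
    have h1 : (S.card : ℝ) ≤ X ^ (4 * C + 2) := by
      have : (S.card : ℝ) ≤ S₀.card := by exact_mod_cast hS
      refine this.trans (hS₀.trans ?_)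
      exact pow_le_pow_right₀ hX1' (by omega)
    have h2 := hcon S a h1
    have h3 : lev (fun x => f (mix S a x)) i ^ 2 ≤ ∑ i, lev (fun x => f (mix S a x)) i ^ 2 :=
      Finset.single_le_sum (f := fun i => lev (fun x => f (mix S a x)) i ^ 2)
        (fun i _ => sq_nonneg _) (Finset.mem_univ i)
    have h4 : 1 / X ^ (4 * C + 2) ≤ ρ ^ 2 := by
      rw [hρ, one_div_pow]
      apply one_div_le_one_div_of_le (by positivity)
      have : (2 * X ^ (2 * C)) ^ 2 = 4 * X ^ (4 * C) := by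
        rw [mul_pow, ← pow_mul]; norm_num; congr 1; ring
      rw [this, pow_add]
      have : (4:ℝ) ≤ X ^ 2 := by nlinarith
      nlinarith [show 0 < X ^ (4 * C) by positivity]
    apply abs_le_of_sq_le_sq _ hρ0.le
    linarith
  have h5 := mean_path f S₀.card ρ hno S₀ a₀ le_rfl
  have h6 : (S₀.card : ℝ) * ρ ≤ 1 / (2 * X ^ C) := by
    calc (S₀.card : ℝ) * ρ ≤ X ^ C * ρ := by gcongr
      _ = 1 / (2 * X ^ C) := by
        rw [hρ, two_mul C, pow_add]; field_simp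
  have h7 : 1 / (2 * X ^ C) < 1 / X ^ C := by
    apply one_div_lt_one_div_of_lt hXC
    linarith
  have h8 : Ex S₀ a₀ f = EE (fun x => f (mix S₀ a₀ x)) := rfl
  rw [h8] at h5
  linarith

theorem lip_id : ∀ s t : ℝ, |s| ≤ 1 → |t| ≤ 1 → |(fun u : ℝ => u) s - (fun u : ℝ => u) t| ≤ |s - t| :=
  fun _ _ _ _ => le_rfl

theorem lip_sq : ∀ s t : ℝ, |s| ≤ 1 → |t| ≤ 1 →
    |(fun u : ℝ => u ^ 2 / 2) s - (fun u : ℝ => u ^ 2 / 2) t| ≤ |s - t| := by
  intro s t hs ht
  have h1 : (fun u : ℝ => u ^ 2 / 2) s - (fun u : ℝ => u ^ 2 / 2) t = (s + t) / 2 * (s - t) := by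
    simp only; ring
  rw [h1, abs_mul]
  have h2 : |(s + t) / 2| ≤ 1 := by
    rw [abs_le]
    have := abs_le.1 hs
    have := abs_le.1 ht
    constructor <;> linarith
  have := abs_nonneg (s - t)
  nlinarith

theorem pin_sum (S : Finset (Fin N)) (a : Fin N → Bool) (b : Fin N → ℝ) :
    ∑ j, (if j ∈ S then sg (a j) else b j) ^ 2 ≤ S.card + ∑ j, b j ^ 2 := by
  have h1 : ∀ j ∈ (Finset.univ : Finset (Fin N)),
      (if j ∈ S then sg (a j) else b j) ^ 2 ≤ (if j ∈ S then (1:ℝ) else 0) + b j ^ 2 := by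
    intro j _
    split_ifs
    · have : sg (a j) ^ 2 = 1 := by rw [← sq_abs, abs_sg]; norm_num
      rw [this]
      nlinarith [sq_nonneg (b j)]
    · simp
  refine (Finset.sum_le_sum h1).trans ?_
  rw [Finset.sum_add_distrib]
  simp

theorem p3_p5 (h : P3) : P5 := by
  obtain ⟨C, hC⟩ := h
  refine ⟨C + 2, ?_⟩
  intro N f hf d hd hdeg hV
  obtain ⟨S, a, hS, hmv⟩ := hC N f hf d hd hdeg hV
  obtain ⟨X, hX, hX2, hXp, hXd, hXV, hX1⟩ := X_facts f hf d hd hV
  have hX0 : 0 < X := by linarith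
  have hX1' : 1 ≤ X := by linarith
  rw [← hX] at hS ⊢
  rw [hXp] at hmv ⊢
  set g : (Fin N → Bool) → ℝ := fun x => f (mix S a x) with hg
  have hgb : |EE g| ≤ 1 := by
    refine (EE_abs_le g).trans ?_
    rw [← EE_const (N := N) 1]
    exact EE_mono fun x => hf _
  have hfb : |EE f| ≤ 1 := by
    refine (EE_abs_le f).trans ?_
    rw [← EE_const (N := N) 1]
    exact EE_mono hf
  set η : ℝ := 1 / X ^ C with hη
  have hη0 : 0 < η := by positivity
  have hη4 : 1 / X ^ (C + 2) ≤ η / 4 := by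
    rw [hη, pow_add, div_div]
    apply one_div_le_one_div_of_le (by positivity)
    have : (4:ℝ) ≤ X ^ 2 := by nlinarith
    nlinarith [show 0 < X ^ C by positivity]
  refine ⟨fun j => if j ∈ S then sg (a j) else 0, ?_, ?_, ?_⟩
  · intro j
    show |if j ∈ S then sg (a j) else 0| ≤ 1
    split_ifs
    · rw [abs_sg]
    · simp
  · refine (pin_sum S a (fun _ => 0)).trans ?_
    simp only [ne_eq, OfNat.ofNat_ne_zero, not_false_eq_true, zero_pow, Finset.sum_const_zero,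
      add_zero]
    exact hS.trans (pow_le_pow_right₀ hX1' (by omega))
  · by_cases hm : η / 4 ≤ |EE g - EE f|
    · refine ⟨fun u => u, lip_id, ?_⟩
      rw [mu_sub]
      exact hη4.trans hm
    · refine ⟨fun u => u ^ 2 / 2, lip_sq, ?_⟩
      rw [mu_sub S a (fun x => f x ^ 2 / 2)]
      push Not at hm
      refine hη4.trans ?_
      have e1 : EE (fun x => f (mix S a x) ^ 2 / 2) = EE (fun x => g x ^ 2) / 2 := by
        have : EE (fun x => f (mix S a x) ^ 2 / 2) = EE (fun x => (1/2 : ℝ) * g x ^ 2) := by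
          apply EE_congr; intro x; simp only [hg]; ring
        rw [this, EE_mul]; ring
      have e2 : EE (fun x => f x ^ 2 / 2) = EE (fun x => f x ^ 2) / 2 := by
        have : EE (fun x => f x ^ 2 / 2) = EE (fun x => (1/2 : ℝ) * f x ^ 2) := by
          apply EE_congr; intro x; ring
        rw [this, EE_mul]; ring
      rw [e1, e2]
      unfold var at hmv
      have e3 : |EE g ^ 2 - EE f ^ 2| ≤ η / 2 := by
        have : EE g ^ 2 - EE f ^ 2 = (EE g + EE f) * (EE g - EE f) := by ring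
        rw [this, abs_mul]
        have h2 : |EE g + EE f| ≤ 2 := by
          refine (abs_add_le _ _).trans (by linarith)
        have := abs_nonneg (EE g - EE f)
        have := abs_nonneg (EE g + EE f)
        nlinarith
      have e4 : EE (fun x => g x ^ 2) / 2 - EE (fun x => f x ^ 2) / 2
          = ((EE (fun x => g x ^ 2) - EE g ^ 2 - (EE (fun x => f x ^ 2) - EE f ^ 2))
            + (EE g ^ 2 - EE f ^ 2)) / 2 := by ring
      rw [e4, abs_div]
      have h3 : |(2:ℝ)| = 2 := by norm_num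
      rw [h3]
      have h4 := abs_sub_abs_le_abs_sub
        (EE (fun x => g x ^ 2) - EE g ^ 2 - (EE (fun x => f x ^ 2) - EE f ^ 2))
        (-(EE g ^ 2 - EE f ^ 2))
      rw [sub_neg_eq_add, abs_neg] at h4
      linarith

theorem p4_p5 (h : P4) : P5 := by
  obtain ⟨C, hC⟩ := h
  refine ⟨C + 3, ?_⟩
  intro N f hf d hd hdeg hV
  obtain ⟨S, a, hS, hmv⟩ := hC N f hf d hd hdeg hV
  obtain ⟨X, hX, hX2, hXp, hXd, hXV, hX1⟩ := X_facts f hf d hd hV
  have hX0 : 0 < X := by linarith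
  have hX1' : 1 ≤ X := by linarith
  have hd1 : (1:ℝ) ≤ d := by exact_mod_cast hd
  rw [← hX] at hS ⊢
  rw [hXp] at hmv ⊢
  have hXC : 0 < X ^ C := by positivity
  set g : (Fin N → Bool) → ℝ := fun x => f (mix S a x) with hg
  set W : ℝ := ∑ i, lev g i ^ 2 with hW
  have hW0 : 0 < W := lt_of_lt_of_le (by positivity) hmv
  obtain ⟨b, hb1, hbs, hb0, hbm⟩ := level_move hd (degLe_mix d f hdeg S a) W hW hW0
  have hsW : 1 / X ^ C ≤ Real.sqrt W := by
    apply Real.le_sqrt_of_sq_le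
    refine le_trans ?_ hmv
    have h1 : 1 / X ^ C ≤ 1 := by
      rw [div_le_one hXC]
      exact one_le_pow₀ hX1'
    have h2 : 0 < 1 / X ^ C := by positivity
    nlinarith
  have hB : 1 / X ^ (C + 3) ≤ Real.sqrt W / (4 * (d : ℝ) ^ 2) / 2 := by
    have h8 : 8 * (d:ℝ) ^ 2 ≤ X ^ 3 := by
      have h9 : (d:ℝ) ^ 2 ≤ (X / 2) ^ 2 := by gcongr
      have h10 : X ^ 2 * 2 ≤ X ^ 3 := by
        rw [pow_succ X 2]
        gcongr
      nlinarith
    rw [div_div, le_div_iff₀ (by positivity)]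
    calc 1 / X ^ (C + 3) * (4 * (d:ℝ) ^ 2 * 2) = 1 / X ^ (C + 3) * (8 * (d:ℝ) ^ 2) := by ring
      _ ≤ 1 / X ^ (C + 3) * X ^ 3 := by gcongr
      _ = 1 / X ^ C := by rw [pow_add]; field_simp
      _ ≤ Real.sqrt W := hsW
  by_cases hm : Real.sqrt W / (4 * (d : ℝ) ^ 2) / 2 ≤ |EE g - EE f|
  · refine ⟨fun j => if j ∈ S then sg (a j) else 0, ?_, ?_, fun u => u, lip_id, ?_⟩
    · intro j
      show |if j ∈ S then sg (a j) else 0| ≤ 1
      split_ifs
      · rw [abs_sg]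
      · simp
    · refine (pin_sum S a (fun _ => 0)).trans ?_
      simp only [ne_eq, OfNat.ofNat_ne_zero, not_false_eq_true, zero_pow, Finset.sum_const_zero,
        add_zero]
      exact hS.trans (pow_le_pow_right₀ hX1' (by omega))
    · rw [mu_sub]
      exact hB.trans hm
  · refine ⟨fun j => if j ∈ S then sg (a j) else b j, ?_, ?_, fun u => u, lip_id, ?_⟩
    · intro j
      show |if j ∈ S then sg (a j) else b j| ≤ 1
      split_ifs
      · rw [abs_sg]
      · exact hb1 j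
    · refine (pin_sum S a b).trans ?_
      have h1 : X ^ C + 1 ≤ X ^ (C + 3) := by
        rw [pow_add]
        have : (8:ℝ) ≤ X ^ 3 := by
          calc (8:ℝ) = 2 ^ 3 := by norm_num
            _ ≤ X ^ 3 := by gcongr
        have h2 : 1 ≤ X ^ C := one_le_pow₀ hX1'
        nlinarith
      linarith
    · have h1 : (fun j => if j ∈ S then (0:ℝ) else b j) = b := by
        funext j
        by_cases hj : j ∈ S
        · rw [if_pos hj, hb0 j (lev_mem f S a j hj)]
        · rw [if_neg hj]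
      rw [mu_mix S a b f, h1]
      push Not at hm
      refine hB.trans ?_
      have h2 := abs_sub_abs_le_abs_sub (mu b g - EE g) (-(EE g - EE f))
      rw [abs_neg] at h2
      have h3 : mu b g - EE g - -(EE g - EE f) = mu b g - EE f := by ring
      rw [h3] at h2
      show Real.sqrt W / (4 * (d : ℝ) ^ 2) / 2 ≤ |mu b g - EE f|
      linarith

theorem p5_p1 (h : P5) : P1 := by
  obtain ⟨C, hC⟩ := h
  refine ⟨(1 / 2 ^ (26 + 16 * C)) ^ 2, 2 * (6 + 4 * C), by positivity, ?_⟩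
  intro N f hf d hd hdeg hV
  have hd1 : (1:ℝ) ≤ d := by exact_mod_cast hd
  have hd0 : (0:ℝ) < d := by linarith
  have hV1 := var_le_one f hf
  set Y : ℝ := 16 * d / var f with hY
  have hY0 : 0 < Y := by positivity
  set δ : ℝ := 1 / (2 * Y ^ C) with hδ
  have hδ0 : 0 < δ := by positivity
  rcases dichotomy f hf d hd hdeg hV (Y ^ C) δ (by positivity) hδ0 with ⟨j, hj⟩ |
    ⟨S, a, _, hvar, hrig⟩
  · refine ⟨j, ?_⟩
    have e1 : EE (fun x => ((f x - f (flp j x)) / 2) ^ 2) = inf1 f j := by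
      unfold inf1 dd
      have : EE (fun x => ((f x - f (flp j x)) / 2) ^ 2)
          = EE (fun x => (1 / 4 : ℝ) * |f x - f (flp j x)| ^ 2) := by
        apply EE_congr; intro x; rw [sq_abs]; ring
      rw [this, EE_mul]; ring
    rw [← e1]
    refine le_trans ?_ hj
    rw [pow_mul', ← mul_pow]
    apply pow_le_pow_left₀ (by positivity)
    have e2 : 1 / (2 ^ 23 * (d:ℝ) ^ 6 * Y ^ C / (var f * δ ^ 3))
        = var f / (2 ^ 26 * (d:ℝ) ^ 6 * Y ^ (4 * C)) := by
      rw [hδ, show 4 * C = C + C * 3 by ring, pow_add, pow_mul]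
      field_simp
    rw [e2, le_div_iff₀ (by positivity)]
    have e3 : Y ^ (4 * C) = 2 ^ (16 * C) * ((d:ℝ) / var f) ^ (4 * C) := by
      have : Y = 2 ^ 4 * ((d:ℝ) / var f) := by rw [hY]; ring
      rw [this, mul_pow, ← pow_mul]
      congr 2
      ring
    have e4 : (var f / (d:ℝ)) ^ (6 + 4 * C) * ((d:ℝ) / var f) ^ (4 * C) = (var f / d) ^ 6 := by
      rw [pow_add, mul_assoc, ← mul_pow]
      have : var f / (d:ℝ) * ((d:ℝ) / var f) = 1 := by field_simp
      rw [this, one_pow, mul_one]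
    calc 1 / 2 ^ (26 + 16 * C) * (var f / (d:ℝ)) ^ (6 + 4 * C) * (2 ^ 26 * (d:ℝ) ^ 6 * Y ^ (4 * C))
        = (1 / 2 ^ (26 + 16 * C) * (2 ^ 26 * 2 ^ (16 * C))) * (d:ℝ) ^ 6
          * ((var f / (d:ℝ)) ^ (6 + 4 * C) * ((d:ℝ) / var f) ^ (4 * C)) := by rw [e3]; ring
      _ = var f ^ 6 := by
          rw [e4, ← pow_add]
          field_simp
      _ ≤ var f := by
          have : var f ^ 5 ≤ 1 := pow_le_one₀ hV.le hV1
          nlinarith
  · exfalso
    set g : (Fin N → Bool) → ℝ := fun x => f (mix S a x) with hg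
    have hVg : 0 < var g := by linarith
    obtain ⟨b, hb1, hbs, q, hq, hmv⟩ := hC N g (fun x => hf _) d hd (degLe_mix d f hdeg S a) hVg
    have h1 : 2 * (d:ℝ) / var g ≤ Y := by
      rw [hY, div_le_div_iff₀ hVg hV]
      nlinarith
    have h2 : ∑ j, b j ^ 2 ≤ Y ^ C := hbs.trans (by gcongr)
    have h3 := hrig b hb1 h2 q hq
    have h4 : 1 / Y ^ C ≤ (var g / (2 * (d:ℝ))) ^ C := by
      rw [one_div, ← inv_pow]
      gcongr
      rw [← inv_div]
      exact (inv_le_inv₀ hY0 (by positivity)).2 h1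
    have h5 : δ < 1 / Y ^ C := by
      rw [hδ]
      apply one_div_lt_one_div_of_lt (by positivity)
      have : 0 < Y ^ C := by positivity
      linarith
    linarith

end Pool.Agent.TH334.AA
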