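import Pool.Agent.TH334.AA.Crit2
import Pool.Agent.TH334.AA.Equiv
import Pool.Agent.H889R3.SA.All

/-!
# Equivalent forms of the Aaronson-Ambainis conjecture: local influences
-/

set_option autoImplicit false

namespace Pool.Agent.TH334.AA

open Finset Pool.Agent.H572R2 Pool.Agent.H572R4.QA

/-- Small subcubes with a noise stable part (noise rate `κ`). -/
def P6 (κ : ℝ) : Prop := ∃ C : ℕ, ∀ (N : ℕ) (f : (Fin N → Bool) → ℝ),
  (∀ x, |f x| ≤ 1) → ∀ d : ℕ, 1 ≤ d → DegLe d f → 0 < var f →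
    ∃ (S : Finset (Fin N)) (a : Fin N → Bool), (S.card : ℝ) ≤ (2 * d / var f) ^ C ∧
      (var f / (2 * d)) ^ C ≤ H889R3.SA.st κ (fun x => f (mix S a x))

/-- Small subcubes with an influential variable. -/
def P7 : Prop := ∃ C : ℕ, ∀ (N : ℕ) (f : (Fin N → Bool) → ℝ),
  (∀ x, |f x| ≤ 1) → ∀ d : ℕ, 1 ≤ d → DegLe d f → 0 < var f →
    ∃ (S : Finset (Fin N)) (a : Fin N → Bool) (j : Fin N),
      (S.card : ℝ) ≤ (2 * d / var f) ^ C ∧
      (var f / (2 * d)) ^ C ≤ inf1 (fun x => f (mix S a x)) j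

/-- Small tilts with an influential variable. -/
def P8 : Prop := ∃ C : ℕ, ∀ (N : ℕ) (f : (Fin N → Bool) → ℝ),
  (∀ x, |f x| ≤ 1) → ∀ d : ℕ, 1 ≤ d → DegLe d f → 0 < var f →
    ∃ b : Fin N → ℝ, (∀ j, |b j| ≤ 1) ∧ ∑ j, b j ^ 2 ≤ (2 * d / var f) ^ C ∧
      ∃ j : Fin N, (var f / (2 * d)) ^ C ≤ mu b (fun x => ((f x - f (flp j x)) / 2) ^ 2)

variable {N : ℕ}

theorem st_ge (g : (Fin N → Bool) → ℝ) :
    1 / 2 * ∑ i, lev g i ^ 2 ≤ H889R3.SA.st (1 / 2) g := by
  unfold H889R3.SA.st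
  have h1 : ∀ i, lev g i ^ 2 = H889R3.SA.fh g {i} ^ 2 := by
    intro i
    unfold lev H889R3.SA.fh
    have : EE (fun x => g x * ∏ j ∈ {i}, sg (x j)) = EE (fun x => (-1) * (g x * (-1 : ℝ) ^ (x i).toNat)) := by
      apply EE_congr; intro x
      rw [Finset.prod_singleton, sg_eq]; ring
    rw [this, EE_mul]; ring
  have h2 : 1 / 2 * ∑ i, lev g i ^ 2
      = ∑ T ∈ (Finset.univ : Finset (Fin N)).map ⟨singleton, Finset.singleton_injective⟩,
        (if T.Nonempty then (1 - 1 / 2 : ℝ) ^ T.card * H889R3.SA.fh g T ^ 2 else 0) := by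
    rw [Finset.sum_map, Finset.mul_sum]
    apply Finset.sum_congr rfl
    intro i _
    simp only [Function.Embedding.coeFn_mk, Finset.singleton_nonempty, if_true,
      Finset.card_singleton, pow_one]
    rw [h1]
    norm_num
  rw [h2]
  apply Finset.sum_le_sum_of_subset_of_nonneg (Finset.subset_univ _)
  intro T _ _
  split_ifs
  · positivity
  · exact le_rfl

theorem st_anti (κ : ℝ) (hκ : κ ≤ 1 / 2) (g : (Fin N → Bool) → ℝ) :
    H889R3.SA.st (1 / 2) g ≤ H889R3.SA.st κ g := by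
  unfold H889R3.SA.st
  apply Finset.sum_le_sum
  intro T _
  split_ifs
  · have : (1 - 1 / 2 : ℝ) ^ T.card ≤ (1 - κ) ^ T.card :=
      pow_le_pow_left₀ (by norm_num) (by linarith) _
    exact mul_le_mul_of_nonneg_right this (sq_nonneg _)
  · exact le_rfl

theorem p4_p6 (κ : ℝ) (hκ : κ ≤ 1 / 2) (h : P4) : P6 κ := by
  obtain ⟨C, hC⟩ := h
  refine ⟨C + 1, ?_⟩
  intro N f hf d hd hdeg hV
  obtain ⟨S, a, hS, hmv⟩ := hC N f hf d hd hdeg hV
  obtain ⟨X, hX, hX2, hXp, hXd, hXV, hX1⟩ := X_facts f hf d hd hV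
  have hX0 : 0 < X := by linarith
  have hX1' : 1 ≤ X := by linarith
  rw [← hX] at hS ⊢
  rw [hXp] at hmv ⊢
  refine ⟨S, a, hS.trans (pow_le_pow_right₀ hX1' (by omega)), ?_⟩
  refine le_trans ?_ ((st_ge _).trans (st_anti κ hκ _))
  have h1 : 1 / X ^ (C + 1) ≤ 1 / 2 * (1 / X ^ C) := by
    rw [pow_succ, ← one_div_mul_one_div]
    have : 1 / X ≤ 1 / 2 := one_div_le_one_div_of_le (by norm_num) hX2
    have h0 : 0 < 1 / X ^ C := by positivity
    nlinarith
  refine h1.trans ?_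
  gcongr

theorem p6_p7 (κ : ℝ) (hκ0 : 0 < κ) (hκ : κ ≤ 1 / 2) (h : P6 κ) : P7 := by
  obtain ⟨C, hC⟩ := h
  obtain ⟨L, hL⟩ := exists_nat_ge (98000 * Real.log (1 / κ))
  refine ⟨C + (C + 2) * L, ?_⟩
  intro N f hf d hd hdeg hV
  obtain ⟨S, a, hS, hst⟩ := hC N f hf d hd hdeg hV
  obtain ⟨X, hX, hX2, hXp, hXd, hXV, hX1⟩ := X_facts f hf d hd hV
  have hX0 : 0 < X := by linarith
  have hX1' : 1 ≤ X := by linarith
  have hd1 : (1:ℝ) ≤ d := by exact_mod_cast hd
  rw [← hX] at hS ⊢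
  rw [hXp] at hst ⊢
  set g : (Fin N → Bool) → ℝ := fun x => f (mix S a x) with hg
  have hst0 : 0 < H889R3.SA.st κ g := lt_of_lt_of_le (by positivity) hst
  obtain ⟨i, hi⟩ := H889R3.SA.main11 H889R3.SA.taskA1 H889R3.SA.taskA3
    Pool.Agent.H784R3.SA.taskB3 H889R3.SA.allG H889R3.SA.taskH H889R3.SA.allI d hd g
    (fun x => hf _) (degLe_mix d f hdeg S a) κ hκ0 hκ hst0
  refine ⟨S, a, i, hS.trans (pow_le_pow_right₀ hX1' (by omega)), le_trans ?_ hi⟩
  have h1 : 1 / X ^ (C + 2) ≤ H889R3.SA.st κ g / (4 * d) := by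
    rw [le_div_iff₀ (by positivity)]
    refine le_trans ?_ hst
    have h2 : 4 * (d:ℝ) ≤ X ^ 2 := by nlinarith
    calc 1 / X ^ (C + 2) * (4 * (d:ℝ)) ≤ 1 / X ^ (C + 2) * X ^ 2 := by gcongr
      _ = 1 / X ^ C := by rw [pow_add]; field_simp
  have hy0 : 0 < 1 / X ^ (C + 2) := by positivity
  have hy1 : 1 / X ^ (C + 2) ≤ 1 := by
    rw [div_le_one (by positivity)]
    exact one_le_pow₀ hX1'
  have hlog0 : 0 ≤ Real.log (1 / κ) := by
    apply Real.log_nonneg
    rw [le_div_iff₀ hκ0]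
    linarith
  calc 1 / X ^ (C + (C + 2) * L) ≤ 1 / X ^ ((C + 2) * L) := by
        apply one_div_le_one_div_of_le (by positivity)
        exact pow_le_pow_right₀ hX1' (by omega)
    _ = (1 / X ^ (C + 2)) ^ L := by
        rw [one_div_pow, ← pow_mul]
    _ = (1 / X ^ (C + 2)) ^ (L : ℝ) := (Real.rpow_natCast _ _).symm
    _ ≤ (1 / X ^ (C + 2)) ^ (98000 * Real.log (1 / κ)) :=
        Real.rpow_le_rpow_of_exponent_ge hy0 hy1 hL
    _ ≤ _ := Real.rpow_le_rpow hy0.le h1 (by positivity)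

theorem p7_p8 (h : P7) : P8 := by
  obtain ⟨C, hC⟩ := h
  refine ⟨C, ?_⟩
  intro N f hf d hd hdeg hV
  obtain ⟨S, a, j, hS, hinf⟩ := hC N f hf d hd hdeg hV
  refine ⟨fun j => if j ∈ S then sg (a j) else 0, ?_, ?_, j, ?_⟩
  · intro j
    show |if j ∈ S then sg (a j) else 0| ≤ 1
    split_ifs
    · rw [abs_sg]
    · simp
  · refine (pin_sum S a (fun _ => 0)).trans ?_
    simp only [ne_eq, OfNat.ofNat_ne_zero, not_false_eq_true, zero_pow, Finset.sum_const_zero,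
      add_zero]
    exact hS
  · rw [mu_sub S a (fun x => ((f x - f (flp j x)) / 2) ^ 2)]
    by_cases hj : j ∈ S
    · have h0 : inf1 (fun x => f (mix S a x)) j = 0 := inf1_mix_mem f S a j hj
      rw [h0] at hinf
      refine hinf.trans ?_
      exact EE_nonneg fun x => sq_nonneg _
    · refine hinf.trans (le_of_eq ?_)
      rw [inf1_mix_not_mem f S a j hj]
      unfold Ex JQ dd
      apply EE_congr
      intro x
      rw [sq_abs]; ring

theorem p8_p1 (h : P8) : P1 := by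
  obtain ⟨C, hC⟩ := h
  refine ⟨(1 / 2 ^ (28 + 16 * C)) ^ 2, 2 * (6 + 4 * C), by positivity, ?_⟩
  intro N f hf d hd hdeg hV
  have hd1 : (1:ℝ) ≤ d := by exact_mod_cast hd
  have hd0 : (0:ℝ) < d := by linarith
  have hV1 := var_le_one f hf
  set Y : ℝ := 16 * d / var f with hY
  have hY0 : 0 < Y := by positivity
  have hY1 : 1 ≤ Y := by
    rw [hY, le_div_iff₀ hV]; linarith
  set δ : ℝ := 1 / (2 * Y ^ C) with hδ
  have hδ0 : 0 < δ := by positivity
  have hYC : 1 ≤ Y ^ C := one_le_pow₀ hY1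
  have hδ1 : δ ≤ 1 := by
    rw [hδ, div_le_one (by positivity)]; linarith
  rcases dichotomy2 f hf d hd hdeg hV (Y ^ C) δ hYC hδ0 hδ1 with ⟨j, hj⟩ |
    ⟨S, a, _, hvar, hrig⟩
  · refine ⟨j, ?_⟩
    have e1 : EE (fun x => ((f x - f (flp j x)) / 2) ^ 2) = inf1 f j := by
      unfold inf1 dd
      have : EE (fun x => ((f x - f (flp j x)) / 2) ^ 2)
          = EE (fun x => (1 / 4 : ℝ) * |f x - f (flp j x)| ^ 2) := by
        apply EE_congr; intro x; rw [sq_abs]; ring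
      rw [this, EE_mul]; ring
    rw [← e1]
    refine le_trans ?_ hj
    rw [pow_mul', ← mul_pow]
    apply pow_le_pow_left₀ (by positivity)
    have e2 : 1 / (2 ^ 25 * (d:ℝ) ^ 6 * Y ^ C / (var f * δ ^ 3))
        = var f / (2 ^ 28 * (d:ℝ) ^ 6 * Y ^ (4 * C)) := by
      rw [hδ, show 4 * C = C + C * 3 by ring, pow_add, pow_mul]
      field_simp
    rw [e2, le_div_iff₀ (by positivity)]
    have e3 : Y ^ (4 * C) = 2 ^ (16 * C) * ((d:ℝ) / var f) ^ (4 * C) := by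
      have : Y = 2 ^ 4 * ((d:ℝ) / var f) := by rw [hY]; ring
      rw [this, mul_pow, ← pow_mul]
      congr 2
      ring
    have e4 : (var f / (d:ℝ)) ^ (6 + 4 * C) * ((d:ℝ) / var f) ^ (4 * C) = (var f / d) ^ 6 := by
      rw [pow_add, mul_assoc, ← mul_pow]
      have : var f / (d:ℝ) * ((d:ℝ) / var f) = 1 := by field_simp
      rw [this, one_pow, mul_one]
    calc 1 / 2 ^ (28 + 16 * C) * (var f / (d:ℝ)) ^ (6 + 4 * C) * (2 ^ 28 * (d:ℝ) ^ 6 * Y ^ (4 * C))
        = (1 / 2 ^ (28 + 16 * C) * (2 ^ 28 * 2 ^ (16 * C))) * (d:ℝ) ^ 6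
          * ((var f / (d:ℝ)) ^ (6 + 4 * C) * ((d:ℝ) / var f) ^ (4 * C)) := by rw [e3]; ring
      _ = var f ^ 6 := by
          rw [e4, ← pow_add]
          field_simp
      _ ≤ var f := by
          have : var f ^ 5 ≤ 1 := pow_le_one₀ hV.le hV1
          nlinarith
  · exfalso
    set g : (Fin N → Bool) → ℝ := fun x => f (mix S a x) with hg
    have hVg : 0 < var g := by linarith
    obtain ⟨b, hb1, hbs, j, hmv⟩ := hC N g (fun x => hf _) d hd (degLe_mix d f hdeg S a) hVg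
    have h1 : 2 * (d:ℝ) / var g ≤ Y := by
      rw [hY, div_le_div_iff₀ hVg hV]
      nlinarith
    have h2 : ∑ j, b j ^ 2 ≤ Y ^ C := hbs.trans (by gcongr)
    have h3 := (hrig b hb1 h2).2 j
    have h4 : 1 / Y ^ C ≤ (var g / (2 * (d:ℝ))) ^ C := by
      rw [one_div, ← inv_pow]
      gcongr
      rw [← inv_div]
      exact (inv_le_inv₀ hY0 (by positivity)).2 h1
    have h5 : δ < 1 / Y ^ C := by
      rw [hδ]
      apply one_div_lt_one_div_of_lt (by positivity)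
      linarith
    have h6 : mu b (fun x => ((g x - g (flp j x)) / 2) ^ 2)
        ≤ mu b (fun x => |(f (mix S a x) - f (mix S a (flp j x))) / 2|) := by
      apply mu_mono b hb1
      intro x
      show ((f (mix S a x) - f (mix S a (flp j x))) / 2) ^ 2 ≤ _
      rw [← sq_abs]
      have h7 : |(f (mix S a x) - f (mix S a (flp j x))) / 2| ≤ 1 := by
        have e1 := abs_le.1 (hf (mix S a x))
        have e2 := abs_le.1 (hf (mix S a (flp j x)))
        rw [abs_le]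
        constructor <;> linarith
      have := abs_nonneg ((f (mix S a x) - f (mix S a (flp j x))) / 2)
      nlinarith
    linarith

end Pool.Agent.TH334.AA
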