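import Pool.Agent.H572R4.QA.B2x
import Pool.Agent.H572R4.QA.B3

/-!
# The tilt inequality

If `h` has fractional certificates `w` with error `ε`, total sensitivity at most `s₀` at every point
and all the averages `EE (w j)` are at most `τ`, then the mean of `h` changes by at most
`ε + lam * ∑ b_j ^ 2 + τ * s₀ / (2 * lam)` when the uniform measure is replaced by the product
measure with means `b`.
-/

set_option autoImplicit false

namespace Pool.Agent.TH334.AA

open Finset Pool.Agent.H572R2 Pool.Agent.H572R4.QA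

variable {N : ℕ}

theorem weight_nonneg (b : Fin N → ℝ) (hb : ∀ j, |b j| ≤ 1) (x : Fin N → Bool) :
    0 ≤ ∏ l, (1 + b l * sg (x l)) :=
  Finset.prod_nonneg fun l _ => B3_weight_nonneg (b l) (hb l) (x l)

theorem mu_mono (b : Fin N → ℝ) (hb : ∀ j, |b j| ≤ 1) {g g' : (Fin N → Bool) → ℝ}
    (h : ∀ x, g x ≤ g' x) : mu b g ≤ mu b g' := by
  unfold mu
  apply EE_mono
  intro x
  exact mul_le_mul_of_nonneg_right (h x) (weight_nonneg b hb x)

theorem mu_const (b : Fin N → ℝ) (c : ℝ) : mu b (fun _ => c) = c := by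
  unfold mu EE
  have h1 := B2x.sum_prod (N := N) (fun l t => 1 + b l * sg t)
  rw [← Finset.mul_sum, h1]
  have h2 : ∀ l : Fin N, (1 + b l * sg true) + (1 + b l * sg false) = 2 := by
    intro l; simp [sg]; ring
  rw [Finset.prod_congr rfl fun l _ => h2 l]
  simp

theorem mu_sum {ι : Type*} (s : Finset ι) (b : Fin N → ℝ) (g : ι → (Fin N → Bool) → ℝ) :
    mu b (fun x => ∑ i ∈ s, g i x) = ∑ i ∈ s, mu b (g i) := by
  unfold mu
  rw [← EE_sum]
  apply EE_congr
  intro x
  rw [Finset.sum_mul]

theorem mu_smul (b : Fin N → ℝ) (c : ℝ) (g : (Fin N → Bool) → ℝ) :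
    mu b (fun x => c * g x) = c * mu b g := by
  unfold mu
  rw [← EE_mul]
  apply EE_congr
  intro x
  ring

theorem mu_split (b : Fin N → ℝ) (j : Fin N) (g : (Fin N → Bool) → ℝ) :
    mu b g = mu (Function.update b j 0) g
      + b j * mu (Function.update b j 0) (fun x => g x * sg (x j)) := by
  unfold mu
  rw [← EE_mul, ← EE_add]
  apply EE_congr
  intro x
  rw [← Finset.mul_prod_erase Finset.univ (fun l => 1 + b l * sg (x l)) (Finset.mem_univ j),
    ← Finset.mul_prod_erase Finset.univ
      (fun l => 1 + Function.update b j 0 l * sg (x l)) (Finset.mem_univ j)]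
  have h1 : ∏ l ∈ Finset.univ.erase j, (1 + Function.update b j 0 l * sg (x l))
      = ∏ l ∈ Finset.univ.erase j, (1 + b l * sg (x l)) := by
    apply Finset.prod_congr rfl
    intro l hl
    rw [Function.update_of_ne (Finset.ne_of_mem_erase hl)]
  rw [h1, Function.update_self]
  ring

theorem sg_flp (j : Fin N) (x : Fin N → Bool) : sg (flp j x j) = - sg (x j) := by
  rw [flp_same]
  cases x j <;> simp [sg]

theorem mu_flp (b : Fin N → ℝ) (j : Fin N) (hj : b j = 0) (g : (Fin N → Bool) → ℝ) :
    mu b (fun x => g (flp j x)) = mu b g := by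
  unfold mu
  rw [← EE_flp j (fun x => g x * ∏ l, (1 + b l * sg (x l)))]
  apply EE_congr
  intro x
  rw [B3_prod_flp b j hj]

theorem mu_level (b : Fin N → ℝ) (hb : ∀ j, |b j| ≤ 1) (j : Fin N) (hj : b j = 0)
    (g : (Fin N → Bool) → ℝ) :
    |mu b (fun x => g x * sg (x j))| ≤ 1 / 2 * mu b (dd g j) := by
  have h1 : mu b (fun x => g (flp j x) * sg (flp j x j)) = mu b (fun x => g x * sg (x j)) :=
    mu_flp b j hj (fun x => g x * sg (x j))
  have h2 : mu b (fun x => g x * sg (x j))
      = mu b (fun x => 1 / 2 * ((g x - g (flp j x)) * sg (x j))) := by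
    have h3 : mu b (fun x => 1 / 2 * ((g x - g (flp j x)) * sg (x j)))
        = 1 / 2 * (mu b (fun x => g x * sg (x j)) + mu b (fun x => g (flp j x) * sg (flp j x j))) := by
      unfold mu
      rw [← EE_add, ← EE_mul]
      apply EE_congr
      intro x
      beta_reduce
      rw [sg_flp]
      ring
    rw [h3, h1]
    ring
  rw [h2, abs_le]
  have h4 : ∀ x : Fin N → Bool, |(g x - g (flp j x)) * sg (x j)| = dd g j x := by
    intro x
    unfold dd
    rw [abs_mul]
    have : |sg (x j)| = 1 := by cases x j <;> simp [sg]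
    rw [this, mul_one]
  constructor
  · rw [← mul_neg_one, ← mu_smul, mul_comm, ← mu_smul]
    apply mu_mono b hb
    intro x
    have := (abs_le.1 (h4 x).le).1
    linarith
  · rw [← mu_smul]
    apply mu_mono b hb
    intro x
    have := (abs_le.1 (h4 x).le).2
    linarith

theorem mu_dd (b : Fin N → ℝ) (j : Fin N) (g : (Fin N → Bool) → ℝ) :
    mu (Function.update b j 0) (dd g j) = mu b (dd g j) := by
  rw [mu_split b j (dd g j)]
  have h1 : mu (Function.update b j 0) (fun x => dd g j (flp j x) * sg (flp j x j))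
      = mu (Function.update b j 0) (fun x => dd g j x * sg (x j)) :=
    mu_flp (Function.update b j 0) j (by simp) (fun x => dd g j x * sg (x j))
  have h2 : mu (Function.update b j 0) (fun x => dd g j (flp j x) * sg (flp j x j))
      = - mu (Function.update b j 0) (fun x => dd g j x * sg (x j)) := by
    have : mu (Function.update b j 0) (fun x => dd g j (flp j x) * sg (flp j x j))
        = mu (Function.update b j 0) (fun x => (-1) * (dd g j x * sg (x j))) := by
      unfold mu
      apply EE_congr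
      intro x
      beta_reduce
      rw [sg_flp, B3_dd_flp]
      ring
    rw [this, mu_smul]
    ring
  have h3 : mu (Function.update b j 0) (fun x => dd g j x * sg (x j)) = 0 := by linarith
  rw [h3]
  ring

theorem mu_cont (g : (Fin N → Bool) → ℝ) : Continuous (fun b : Fin N → ℝ => mu b g) := by
  unfold mu EE
  fun_prop

/-- The coupling bound. -/
theorem mu_sub_le (h : (Fin N → Bool) → ℝ) (w : Fin N → (Fin N → Bool) → ℝ) (ε τ : ℝ)
    (w0 : ∀ i x, 0 ≤ w i x)
    (cert : ∀ x y, |h x - h y| ≤ ε + ∑ i, (if x i = y i then 0 else w i x))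
    (hτ : ∀ i, EE (w i) ≤ τ) (b : Fin N → ℝ) (hb : ∀ j, |b j| ≤ 1) :
    mu b h - EE h ≤ ε + τ * ∑ j, |b j| := by
  have h2N : (0 : ℝ) < 2 ^ N := by positivity
  have e1 : 2 ^ N * mu b h = ∑ x : Fin N → Bool, ∑ y : Fin N → Bool,
      (∏ l, ker (b l) (x l) (y l)) * h y := by
    rw [coup_y b hb h]
    unfold mu EE
    field_simp
  have e2 : 2 ^ N * EE h = ∑ x : Fin N → Bool, ∑ y : Fin N → Bool,
      (∏ l, ker (b l) (x l) (y l)) * h x := by
    rw [coup_x b hb h]
    unfold EE
    field_simp
  have e3 : 2 ^ N * ε = ∑ x : Fin N → Bool, ∑ y : Fin N → Bool,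
      (∏ l, ker (b l) (x l) (y l)) * ε := by
    rw [coup_x b hb (fun _ => ε)]
    simp
  have e4 : ∀ i : Fin N, ∑ x : Fin N → Bool, ∑ y : Fin N → Bool,
      (∏ l, ker (b l) (x l) (y l)) * (if x i = y i then 0 else w i x)
        ≤ |b i| * (2 ^ N * τ) := by
    intro i
    refine (coup_x_ne b hb (w i) (w0 i) i).trans ?_
    apply mul_le_mul_of_nonneg_left _ (abs_nonneg _)
    have := hτ i
    unfold EE at this
    rw [div_le_iff₀ h2N] at this
    linarith
  have hker : ∀ x y : Fin N → Bool, 0 ≤ ∏ l, ker (b l) (x l) (y l) := fun x y =>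
    Finset.prod_nonneg fun l _ => (ker_props (b l) (hb l)).1 _ _
  have e5 : 2 ^ N * (mu b h - EE h) ≤ 2 ^ N * ε + ∑ i, |b i| * (2 ^ N * τ) := by
    calc 2 ^ N * (mu b h - EE h) = ∑ x : Fin N → Bool, ∑ y : Fin N → Bool,
          (∏ l, ker (b l) (x l) (y l)) * (h y - h x) := by
          rw [mul_sub, e1, e2, ← Finset.sum_sub_distrib]
          apply Finset.sum_congr rfl
          intro x _
          rw [← Finset.sum_sub_distrib]
          apply Finset.sum_congr rfl
          intro y _
          ring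
      _ ≤ ∑ x : Fin N → Bool, ∑ y : Fin N → Bool,
          (∏ l, ker (b l) (x l) (y l)) * (ε + ∑ i, (if x i = y i then 0 else w i x)) := by
          apply Finset.sum_le_sum
          intro x _
          apply Finset.sum_le_sum
          intro y _
          apply mul_le_mul_of_nonneg_left _ (hker x y)
          have := (abs_le.1 (cert x y)).1
          linarith
      _ = 2 ^ N * ε + ∑ i, ∑ x : Fin N → Bool, ∑ y : Fin N → Bool,
          (∏ l, ker (b l) (x l) (y l)) * (if x i = y i then 0 else w i x) := by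
          rw [e3, Finset.sum_comm' (s := (Finset.univ : Finset (Fin N)))
            (t := fun _ => (Finset.univ : Finset (Fin N → Bool)))
            (t' := (Finset.univ : Finset (Fin N → Bool))) (s' := fun _ => Finset.univ)
            (by simp), ← Finset.sum_add_distrib]
          apply Finset.sum_congr rfl
          intro x _
          rw [Finset.sum_comm, ← Finset.sum_add_distrib]
          apply Finset.sum_congr rfl
          intro y _
          rw [mul_add, Finset.mul_sum]
      _ ≤ 2 ^ N * ε + ∑ i, |b i| * (2 ^ N * τ) := by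
          gcongr with i _
          exact e4 i
  have e6 : ∑ i, |b i| * (2 ^ N * τ) = 2 ^ N * (τ * ∑ j, |b j|) := by
    rw [← Finset.sum_mul]; ring
  rw [e6, ← mul_add] at e5
  exact le_of_mul_le_mul_left e5 h2N

/-- One-sided tilt inequality. -/
theorem tilt_upper (h : (Fin N → Bool) → ℝ) (w : Fin N → (Fin N → Bool) → ℝ) (ε τ s₀ : ℝ)
    (w0 : ∀ i x, 0 ≤ w i x)
    (cert : ∀ x y, |h x - h y| ≤ ε + ∑ i, (if x i = y i then 0 else w i x))
    (infl : ∀ x, ∑ i, dd h i x ≤ s₀) (hτ0 : 0 ≤ τ)
    (hτ : ∀ i, EE (w i) ≤ τ) (lam : ℝ) (hlam : 0 < lam) (b : Fin N → ℝ) (hb : ∀ j, |b j| ≤ 1) :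
    mu b h - EE h ≤ ε + lam * ∑ j, b j ^ 2 + τ * s₀ / (2 * lam) := by
  set K : Set (Fin N → ℝ) := Set.pi Set.univ (fun _ => Set.Icc (-1 : ℝ) 1) with hK
  have hKc : IsCompact K := isCompact_univ_pi fun _ => isCompact_Icc
  have hKb : ∀ c : Fin N → ℝ, c ∈ K ↔ ∀ j, |c j| ≤ 1 := by
    intro c
    rw [hK, Set.mem_univ_pi]
    exact forall_congr' fun j => by rw [Set.mem_Icc, abs_le]
  have hKne : K.Nonempty := ⟨b, (hKb b).2 hb⟩
  have hcont : ContinuousOn (fun c : Fin N → ℝ => mu c h - lam * ∑ j, c j ^ 2) K := by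
    apply Continuous.continuousOn
    apply Continuous.sub (mu_cont h)
    fun_prop
  obtain ⟨c, hcK, hcmax⟩ := hKc.exists_isMaxOn hKne hcont
  have hc : ∀ j, |c j| ≤ 1 := (hKb c).1 hcK
  have hmax : ∀ c' : Fin N → ℝ, (∀ j, |c' j| ≤ 1) →
      mu c' h - lam * ∑ j, c' j ^ 2 ≤ mu c h - lam * ∑ j, c j ^ 2 := fun c' h' =>
    hcmax ((hKb c').2 h')
  -- coordinatewise comparison
  have hcoord : ∀ j, lam * |c j| ≤ 1 / 2 * mu c (dd h j) := by
    intro j
    have hu : ∀ l, |Function.update c j 0 l| ≤ 1 := by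
      intro l
      by_cases hl : l = j
      · subst hl; simp
      · rw [Function.update_of_ne hl]; exact hc l
    have h1 := hmax (Function.update c j 0) hu
    have h2 := mu_split c j h
    have h3 : ∑ l, c l ^ 2 = c j ^ 2 + ∑ l, (Function.update c j 0 l) ^ 2 := by
      rw [← Finset.add_sum_erase Finset.univ (fun l => c l ^ 2) (Finset.mem_univ j),
        ← Finset.add_sum_erase Finset.univ (fun l => (Function.update c j 0 l) ^ 2)
          (Finset.mem_univ j), Function.update_self]
      have : ∑ l ∈ Finset.univ.erase j, (Function.update c j 0 l) ^ 2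
          = ∑ l ∈ Finset.univ.erase j, c l ^ 2 := by
        apply Finset.sum_congr rfl
        intro l hl
        rw [Function.update_of_ne (Finset.ne_of_mem_erase hl)]
      rw [this]; ring
    have h4 := mu_level (Function.update c j 0) hu j (by simp) h
    rw [mu_dd] at h4
    have h5 : lam * c j ^ 2 ≤ c j * mu (Function.update c j 0) (fun x => h x * sg (x j)) := by
      rw [h3] at h1
      rw [h2] at h1
      nlinarith
    have h6 : c j * mu (Function.update c j 0) (fun x => h x * sg (x j))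
        ≤ |c j| * (1 / 2 * mu c (dd h j)) := by
      refine (le_abs_self _).trans ?_
      rw [abs_mul]
      exact mul_le_mul_of_nonneg_left h4 (abs_nonneg _)
    have h7 : |c j| * (lam * |c j|) ≤ |c j| * (1 / 2 * mu c (dd h j)) := by
      have : |c j| * (lam * |c j|) = lam * c j ^ 2 := by
        rw [← sq_abs (c j)]; ring
      rw [this]
      exact h5.trans h6
    rcases eq_or_lt_of_le (abs_nonneg (c j)) with h8 | h8
    · rw [← h8, mul_zero]
      have : (0:ℝ) ≤ mu c (dd h j) := by
        have h9 := mu_mono c hc (g := fun _ => (0:ℝ)) (g' := dd h j)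
          (fun x => abs_nonneg _)
        rw [mu_const] at h9
        exact h9
      linarith
    · exact le_of_mul_le_mul_left h7 h8
  have hsum : lam * ∑ j, |c j| ≤ s₀ / 2 := by
    rw [Finset.mul_sum]
    calc ∑ j, lam * |c j| ≤ ∑ j, 1 / 2 * mu c (dd h j) := Finset.sum_le_sum fun j _ => hcoord j
      _ = 1 / 2 * mu c (fun x => ∑ j, dd h j x) := by
          rw [mu_sum, Finset.mul_sum]
      _ ≤ 1 / 2 * mu c (fun _ => s₀) := by
          apply mul_le_mul_of_nonneg_left _ (by norm_num)
          exact mu_mono c hc infl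
      _ = s₀ / 2 := by rw [mu_const]; ring
  have hc1 := mu_sub_le h w ε τ w0 cert hτ c hc
  have hb1 := hmax b hb
  have h9 : τ * ∑ j, |c j| ≤ τ * s₀ / (2 * lam) := by
    rw [le_div_iff₀ (by positivity)]
    nlinarith
  have h10 : 0 ≤ lam * ∑ j, c j ^ 2 := by positivity
  linarith

/-- The tilt inequality. -/
theorem tilt_abs (h : (Fin N → Bool) → ℝ) (w : Fin N → (Fin N → Bool) → ℝ) (ε τ s₀ : ℝ)
    (w0 : ∀ i x, 0 ≤ w i x)
    (cert : ∀ x y, |h x - h y| ≤ ε + ∑ i, (if x i = y i then 0 else w i x))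
    (infl : ∀ x, ∑ i, dd h i x ≤ s₀) (hτ0 : 0 ≤ τ)
    (hτ : ∀ i, EE (w i) ≤ τ) (lam : ℝ) (hlam : 0 < lam) (b : Fin N → ℝ) (hb : ∀ j, |b j| ≤ 1) :
    |mu b h - EE h| ≤ ε + lam * ∑ j, b j ^ 2 + τ * s₀ / (2 * lam) := by
  have h1 := tilt_upper h w ε τ s₀ w0 cert infl hτ0 hτ lam hlam b hb
  have h2 := tilt_upper (fun x => (-1) * h x) w ε τ s₀ w0
    (by
      intro x y
      have : |(-1) * h x - (-1) * h y| = |h x - h y| := by
        rw [← abs_neg]; congr 1; ring
      rw [this]
      exact cert x y)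
    (by
      intro x
      have : ∀ i, dd (fun x => (-1) * h x) i x = dd h i x := by
        intro i
        unfold dd
        rw [← abs_neg]; congr 1; ring
      rw [Finset.sum_congr rfl fun i _ => this i]
      exact infl x) hτ0 hτ lam hlam b hb
  rw [mu_smul, EE_mul] at h2
  rw [abs_le]
  constructor <;> linarith

end Pool.Agent.TH334.AA
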